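import Mathlib

/-!
# Project FS (MP_75608d_al), interval route: choice of the coded edges

Every event owns at least `T / E` edges and uses at most `T` edges. One can choose one own edge for
each event and a positive proportion of the events such that no chosen event uses the chosen edge of a
chosen event which is at least as long.
-/

set_option autoImplicit false

namespace Pool.Agent.Helper34.IC

open Finset

variable {α β : Type*} [DecidableEq α] [DecidableEq β]

/-- an independent set in a sparse symmetric relation -/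
lemma indep (V : Finset α) (R : α → α → Prop) [DecidableRel R] (hs : ∀ a b, R a b → R b a)
    (hr : ∀ a, ¬ R a a) (D : ℕ) (hD : ∑ a ∈ V, (V.filter (R a)).card ≤ D * V.card) :
    ∃ W ⊆ V, (∀ a ∈ W, ∀ b ∈ W, ¬ R a b) ∧ V.card ≤ 2 * (2 * D + 1) * W.card := by
  obtain ⟨V', hV'⟩ : ∃ V', V' = V.filter fun a => (V.filter (R a)).card ≤ 2 * D := ⟨_, rfl⟩
  have h1 : V.card ≤ 2 * V'.card := by
    obtain ⟨V'', hV''⟩ : ∃ V'', V'' = V.filter fun a => ¬ (V.filter (R a)).card ≤ 2 * D := ⟨_, rfl⟩
    have h2 : V'.card + V''.card = V.card := by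
      rw [hV', hV'']
      exact card_filter_add_card_filter_not _
    have h3 : V''.card * (2 * D + 1) ≤ ∑ a ∈ V'', (V.filter (R a)).card := by
      rw [← smul_eq_mul, ← sum_const]
      refine sum_le_sum fun a ha => ?_
      rw [hV'', mem_filter] at ha
      omega
    have h4 : ∑ a ∈ V'', (V.filter (R a)).card ≤ ∑ a ∈ V, (V.filter (R a)).card :=
      sum_le_sum_of_subset (by rw [hV'']; exact filter_subset _ _)
    have h5 := (h3.trans h4).trans hD
    by_contra hcon
    push Not at hcon
    have h6 : V.card < 2 * V''.card := by omega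
    nlinarith
  obtain ⟨W, hW, hmax⟩ := exists_max_image (V'.powerset.filter fun W => ∀ a ∈ W, ∀ b ∈ W, ¬ R a b)
    (fun W => W.card) ⟨∅, by simp⟩
  rw [mem_filter, mem_powerset] at hW
  obtain ⟨hWV, hWi⟩ := hW
  refine ⟨W, hWV.trans (by rw [hV']; exact filter_subset _ _), hWi, ?_⟩
  have h2 : V' ⊆ W.biUnion fun a => insert a (V.filter (R a)) := by
    intro v hv
    by_contra hcon
    simp only [mem_biUnion, mem_insert, mem_filter, not_exists, not_and, not_or] at hcon
    have hvV : v ∈ V := by rw [hV', mem_filter] at hv; exact hv.1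
    have hvW : v ∉ W := fun h => (hcon v h).1 rfl
    have h3 : (insert v W) ∈ V'.powerset.filter fun W => ∀ a ∈ W, ∀ b ∈ W, ¬ R a b := by
      rw [mem_filter, mem_powerset]
      refine ⟨insert_subset hv hWV, ?_⟩
      intro a ha b hb hab
      rw [mem_insert] at ha hb
      rcases ha with rfl | ha <;> rcases hb with rfl | hb
      · exact hr _ hab
      · exact (hcon b hb).2 hvV (hs _ _ hab)
      · exact (hcon a ha).2 hvV hab
      · exact hWi a ha b hb hab
    have h4 := hmax _ h3
    rw [card_insert_of_notMem hvW] at h4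
    omega
  have h3 : V'.card ≤ W.card * (2 * D + 1) := by
    refine (card_le_card h2).trans (card_biUnion_le.trans ?_)
    rw [← smul_eq_mul, ← sum_const]
    refine sum_le_sum fun a ha => ?_
    have := hWV ha
    rw [hV', mem_filter] at this
    exact (card_insert_le _ _).trans (by omega)
  calc V.card ≤ 2 * V'.card := h1
    _ ≤ 2 * (W.card * (2 * D + 1)) := Nat.mul_le_mul le_rfl h3
    _ = 2 * (2 * D + 1) * W.card := by ring

/-- **choice of the edges** -/
theorem choice (V : Finset α) (hV : V.Nonempty) (T : α → ℕ) (own use : α → Finset β) (E : ℕ)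
    (h1 : ∀ e ∈ V, 1 ≤ T e ∧ T e ≤ E * (own e).card)
    (h2 : ∀ e ∈ V, ∀ e' ∈ V, e ≠ e' → Disjoint (own e) (own e'))
    (h3 : ∀ e ∈ V, (use e).card ≤ T e) :
    ∃ W ⊆ V, ∃ ξ : α → β, (∀ e ∈ W, ξ e ∈ own e) ∧
      (∀ e ∈ W, ∀ e' ∈ W, e ≠ e' → T e ≤ T e' → ξ e' ∉ use e) ∧
      V.card ≤ 2 * (4 * E + 1) * W.card := by
  classical
  obtain ⟨e₀, he₀⟩ := hV
  obtain ⟨load, hload⟩ : ∃ load : α → β → ℕ, load = fun e' q =>
    (V.filter fun e => e ≠ e' ∧ T e ≤ T e' ∧ q ∈ use e).card := ⟨_, rfl⟩
  have hne : ∀ e ∈ V, (own e).Nonempty := by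
    intro e he
    obtain ⟨h4, h5⟩ := h1 e he
    rw [← card_pos]
    by_contra hcon
    have : (own e).card = 0 := by omega
    rw [this] at h5
    omega
  obtain ⟨b₀, hb₀⟩ := hne e₀ he₀
  have hex : ∀ e, ∃ b, e ∈ V → b ∈ own e ∧ ∀ b' ∈ own e, load e b ≤ load e b' := by
    intro e
    by_cases he : e ∈ V
    · obtain ⟨b, hb, hb'⟩ := exists_min_image (own e) (load e) (hne e he)
      exact ⟨b, fun _ => ⟨hb, hb'⟩⟩
    · exact ⟨b₀, fun h => absurd h he⟩
  choose ξ hξ using hex
  -- the total number of arcs
  have harc : ∑ e' ∈ V, load e' (ξ e') ≤ E * V.card := by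
    have key : ∀ e' ∈ V, (load e' (ξ e') : ℚ) ≤
        ∑ e ∈ V, (E : ℚ) * ((own e' ∩ use e).card : ℚ) / (T e : ℚ) := by
      intro e' he'
      obtain ⟨h4, h5⟩ := h1 e' he'
      have hT : (0 : ℚ) < T e' := by exact_mod_cast h4
      have h6 : (own e').card * load e' (ξ e') ≤
          ∑ e ∈ V.filter (fun e => T e ≤ T e'), (own e' ∩ use e).card := by
        calc (own e').card * load e' (ξ e') = ∑ _b ∈ own e', load e' (ξ e') := by
              rw [sum_const, smul_eq_mul]
          _ ≤ ∑ b ∈ own e', load e' b := sum_le_sum fun b hb => (hξ e' he').2 b hb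
          _ ≤ ∑ b ∈ own e', ∑ e ∈ V.filter (fun e => T e ≤ T e'), if b ∈ use e then 1 else 0 := by
              refine sum_le_sum fun b _ => ?_
              rw [hload]
              simp only
              rw [← card_filter]
              apply card_le_card
              intro e he
              simp only [mem_filter] at he ⊢
              tauto
          _ = ∑ e ∈ V.filter (fun e => T e ≤ T e'), ∑ b ∈ own e', if b ∈ use e then 1 else 0 :=
              sum_comm
          _ = _ := by
              refine sum_congr rfl fun e _ => ?_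
              rw [← card_filter, filter_mem_eq_inter]
      have h7 : T e' * load e' (ξ e') ≤
          E * ∑ e ∈ V.filter (fun e => T e ≤ T e'), (own e' ∩ use e).card := by
        calc T e' * load e' (ξ e') ≤ (E * (own e').card) * load e' (ξ e') :=
              Nat.mul_le_mul h5 le_rfl
          _ = E * ((own e').card * load e' (ξ e')) := by ring
          _ ≤ _ := Nat.mul_le_mul le_rfl h6
      have h8 : (T e' : ℚ) * load e' (ξ e') ≤
          E * ∑ e ∈ V.filter (fun e => T e ≤ T e'), ((own e' ∩ use e).card : ℚ) := by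
        exact_mod_cast h7
      have h9 : (load e' (ξ e') : ℚ) ≤
          (E * ∑ e ∈ V.filter (fun e => T e ≤ T e'), ((own e' ∩ use e).card : ℚ)) / T e' := by
        rw [le_div_iff₀ hT]
        linarith
      refine h9.trans ?_
      rw [mul_sum, sum_div]
      calc ∑ e ∈ V.filter (fun e => T e ≤ T e'), (E : ℚ) * ((own e' ∩ use e).card : ℚ) / T e' ≤
          ∑ e ∈ V.filter (fun e => T e ≤ T e'), (E : ℚ) * ((own e' ∩ use e).card : ℚ) / T e := by
            refine sum_le_sum fun e he => ?_
            rw [mem_filter] at he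
            have hTe : (0 : ℚ) < T e := by exact_mod_cast (h1 e he.1).1
            apply div_le_div_of_nonneg_left (by positivity) hTe
            exact_mod_cast he.2
        _ ≤ _ := by
            refine sum_le_sum_of_subset_of_nonneg (filter_subset _ _) fun e _ _ => by positivity
    have h4 : (∑ e' ∈ V, load e' (ξ e') : ℚ) ≤ (E : ℚ) * V.card := by
      calc (∑ e' ∈ V, load e' (ξ e') : ℚ) ≤
          ∑ e' ∈ V, ∑ e ∈ V, (E : ℚ) * ((own e' ∩ use e).card : ℚ) / (T e : ℚ) := sum_le_sum key
        _ = ∑ e ∈ V, ∑ e' ∈ V, (E : ℚ) * ((own e' ∩ use e).card : ℚ) / (T e : ℚ) := sum_comm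
        _ ≤ ∑ e ∈ V, (E : ℚ) := by
            refine sum_le_sum fun e he => ?_
            have hTe : (0 : ℚ) < T e := by exact_mod_cast (h1 e he).1
            rw [← sum_div, ← mul_sum, div_le_iff₀ hTe]
            have h5 : ∑ e' ∈ V, (own e' ∩ use e).card ≤ (use e).card := by
              rw [← card_biUnion]
              · apply card_le_card
                intro b hb
                rw [mem_biUnion] at hb
                obtain ⟨e', -, hb⟩ := hb
                exact (mem_inter.1 hb).2
              · intro a ha b hb hab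
                exact (h2 a ha b hb hab).mono inter_subset_left inter_subset_left
            have h6 : (∑ e' ∈ V, ((own e' ∩ use e).card : ℚ)) ≤ T e := by
              exact_mod_cast h5.trans (h3 e he)
            exact mul_le_mul_of_nonneg_left h6 (by positivity)
        _ = (E : ℚ) * V.card := by rw [sum_const, nsmul_eq_mul]; ring
    exact_mod_cast h4
  obtain ⟨R, hR⟩ : ∃ R : α → α → Prop, R = fun e e' =>
    (e ≠ e' ∧ T e ≤ T e' ∧ ξ e' ∈ use e) ∨ (e' ≠ e ∧ T e' ≤ T e ∧ ξ e ∈ use e') := ⟨_, rfl⟩
  have hD : ∑ a ∈ V, (V.filter (R a)).card ≤ (2 * E) * V.card := by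
    have h4 : ∀ a ∈ V, (V.filter (R a)).card ≤
        (V.filter fun e' => a ≠ e' ∧ T a ≤ T e' ∧ ξ e' ∈ use a).card + load a (ξ a) := by
      intro a _
      rw [hload]
      simp only
      refine (card_le_card ?_).trans (card_union_le _ _)
      intro b hb
      rw [hR] at hb
      simp only [mem_filter, mem_union] at hb ⊢
      tauto
    calc _ ≤ ∑ a ∈ V, ((V.filter fun e' => a ≠ e' ∧ T a ≤ T e' ∧ ξ e' ∈ use a).card +
          load a (ξ a)) := sum_le_sum h4
      _ = ∑ a ∈ V, (V.filter fun e' => a ≠ e' ∧ T a ≤ T e' ∧ ξ e' ∈ use a).card +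
          ∑ a ∈ V, load a (ξ a) := sum_add_distrib
      _ = ∑ a ∈ V, load a (ξ a) + ∑ a ∈ V, load a (ξ a) := by
          congr 1
          simp only [card_filter]
          rw [sum_comm]
          refine sum_congr rfl fun a _ => ?_
          rw [hload]
          simp only [card_filter]
      _ ≤ _ := by linarith
  obtain ⟨W, hW, hWi, hc⟩ := indep V R (by rw [hR]; tauto) (by rw [hR]; tauto) (2 * E) hD
  refine ⟨W, hW, ξ, fun e he => (hξ e (hW he)).1, ?_, ?_⟩
  · intro e he e' he' hne' hT hcon
    apply hWi e he e' he'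
    rw [hR]
    exact Or.inl ⟨hne', hT, hcon⟩
  · calc V.card ≤ 2 * (2 * (2 * E) + 1) * W.card := hc
      _ = _ := by ring

end Pool.Agent.Helper34.IC
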