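import Pool.Agent.Helper34.IC.Jump
import Pool.Agent.Helper34.IC.Choice

/-!
# Project FS (MP_75608d_al), interval route: many events give a coded set

`s` tokens, two systems of paths (words `a`, `b`, the same letters `g`). An event is a maximal window of
slots before which the two paths of one token are at different places.
-/

set_option autoImplicit false

namespace Pool.Agent.Helper34.IC

open Equiv Finset Pool.Agent.Helper4.FS

variable {q n s : ℕ}

/-- the position of token `l` after `t` half steps -/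
def ps (a : ℕ → Perm (Fin n)) (g : ℕ → Option (Lt q)) (y : World q n) (x : Fin s → Fin n)
    (l : Fin s) (t : ℕ) : Fin n := pos (prog a g) y 0 (x l) t

/-- the two paths of `l` are at different places before the letter of round `v` -/
def Apart (a b : ℕ → Perm (Fin n)) (g : ℕ → Option (Lt q)) (y : World q n) (x : Fin s → Fin n)
    (l : Fin s) (v : ℕ) : Prop := ps a g y x l (2 * v + 1) ≠ ps b g y x l (2 * v + 1)

/-- the two paths of `l` are separated by the words of round `i` -/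
def Start (a b : ℕ → Perm (Fin n)) (g : ℕ → Option (Lt q)) (y : World q n) (x : Fin s → Fin n)
    (l : Fin s) (i : ℕ) : Prop :=
  ps a g y x l (2 * i) = ps b g y x l (2 * i) ∧ Apart a b g y x l i

/-- the edge which is crossed by `l` in round `v` is crossed only once in `N` rounds -/
def PrivG (a : ℕ → Perm (Fin n)) (g : ℕ → Option (Lt q)) (y : World q n) (N : ℕ)
    (x : Fin s → Fin n) (l : Fin s) (v : ℕ) : Prop :=
  ∃ m, g v = some m ∧ ∀ (l' : Fin s) (v' : ℕ) (m' : Lt q), v' < N → g v' = some m' →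
    ed y m' (ps a g y x l' (2 * v' + 1)) = ed y m (ps a g y x l (2 * v + 1)) → l' = l ∧ v' = v

open Classical in
/-- the slots of `l` which are lazy or not private -/
noncomputable def Bd (a : ℕ → Perm (Fin n)) (g : ℕ → Option (Lt q)) (y : World q n) (N : ℕ)
    (x : Fin s → Fin n) (l : Fin s) : Finset ℕ := (range N).filter fun v => ¬ PrivG a g y N x l v

/-- good pairs (token, slot) -/
def Gd (a : ℕ → Perm (Fin n)) (g : ℕ → Option (Lt q)) (y : World q n) (E N : ℕ)
    (x : Fin s → Fin n) (l : Fin s) (v : ℕ) : Prop :=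
  NiceAt (Bd a g y N x l) E N v ∧ ¬ ∃ c d, c ≤ v ∧ v < d ∧ d ≤ N ∧ ShW g c d

/-- the box of the data -/
def Box (n N : ℕ) : Finset (Dat n) :=
  (((range (2 * N + 2)) ×ˢ (univ : Finset (Fin n))) ×ˢ
    (((range (2 * N + 2)) ×ˢ (range (2 * N + 2))) ×ˢ
      ((range (2 * N + 2)) ×ˢ (range (2 * N + 2))))).image
    fun z => (⟨z.1.1, z.1.2, z.2.1.1, z.2.1.2, z.2.2.1, z.2.2.2⟩ : Dat n)

lemma card_Box (n N : ℕ) : (Box n N).card ≤ n * (2 * N + 2) ^ 5 := by
  refine card_image_le.trans (le_of_eq ?_)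
  simp only [card_product, card_range, card_univ, Fintype.card_fin]
  ring

lemma mem_Box {N : ℕ} {d : Dat n} (h1 : d.i < 2 * N + 2) (h2 : d.T < 2 * N + 2)
    (h3 : d.k < 2 * N + 2) (h4 : d.t < 2 * N + 2) (h5 : d.t' < 2 * N + 2) : d ∈ Box n N := by
  rw [Box, mem_image]
  refine ⟨((d.i, d.p), ((d.T, d.k), (d.t, d.t'))), ?_, rfl⟩
  simp only [mem_product, mem_range, mem_univ, and_true]
  exact ⟨h1, ⟨h2, h3⟩, h4, h5⟩

lemma box_sum {N w : ℕ} {W : Finset (Dat n)} (hW : W ⊆ Box n N) (hc : W.card = w) :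
    ∑ d ∈ W, (d.k + 1 + d.t + d.t') ≤ w * (6 * N + 4) := by
  rw [← hc, ← smul_eq_mul, ← sum_const]
  refine sum_le_sum fun d hd => ?_
  have := hW hd
  rw [Box, mem_image] at this
  obtain ⟨z, hz, rfl⟩ := this
  simp only [mem_product, mem_range, mem_univ, and_true] at hz
  obtain ⟨h1, ⟨h2, h3⟩, h4, h5⟩ := hz
  show z.2.1.2 + 1 + z.2.2.1 + z.2.2.2 ≤ 6 * N + 4
  omega

section

variable (a b : ℕ → Perm (Fin n)) (g : ℕ → Option (Lt q)) (y : World q n) (x : Fin s → Fin n)

lemma ps_add (l : Fin s) (i k : ℕ) :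
    pos (prog a g) y (2 * i) (ps a g y x l (2 * i)) k = ps a g y x l (2 * i + k) := by
  unfold ps
  rw [pos_add, zero_add]

lemma ps_letter (l : Fin s) (v : ℕ) :
    ps a g y x l (2 * v + 2) = act y (prog a g (2 * v + 1)) (ps a g y x l (2 * v + 1)) := by
  unfold ps
  rw [show 2 * v + 2 = (2 * v + 1) + 1 by ring, pos_succ, zero_add]

lemma prog_odd_eq (v : ℕ) : prog a g (2 * v + 1) = prog b g (2 * v + 1) := by
  rcases hg : g v with _ | m
  · rw [prog_odd_none hg, prog_odd_none hg]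
  · rw [prog_odd_some hg, prog_odd_some hg]

/-- together before the letter is together after the letter -/
lemma letter_iff (l : Fin s) (v : ℕ) :
    ps a g y x l (2 * v + 2) = ps b g y x l (2 * v + 2) ↔ ¬ Apart a b g y x l v := by
  unfold Apart
  rw [not_not, ps_letter, ps_letter, prog_odd_eq a b g v]
  exact (act y (prog b g (2 * v + 1))).injective.eq_iff

lemma start_of_apart (l : Fin s) (v : ℕ) (h : Apart a b g y x l v) :
    ∃ i, i ≤ v ∧ Start a b g y x l i ∧ ∀ u, i ≤ u → u ≤ v → Apart a b g y x l u := by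
  classical
  have hex : ∃ i, i ≤ v ∧ ∀ u, i ≤ u → u ≤ v → Apart a b g y x l u :=
    ⟨v, le_rfl, fun u h1 h2 => by rwa [show u = v by omega]⟩
  obtain ⟨i, ⟨hi, hi'⟩, hmin⟩ := Nat.findX hex
  refine ⟨i, hi, ⟨?_, hi' i le_rfl hi⟩, hi'⟩
  rcases i with _ | i
  · rfl
  · have h1 : ¬ Apart a b g y x l i := by
      intro hcon
      refine hmin i (by omega) ⟨by omega, fun u h2 h3 => ?_⟩
      rcases Nat.lt_or_ge i u with h4 | h4
      · exact hi' u (by omega) h3
      · rwa [show u = i by omega]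
    have := (letter_iff a b g y x l i).2 h1
    rwa [show 2 * i + 2 = 2 * (i + 1) by ring] at this

lemma exists_len {N : ℕ} (l : Fin s) (hcl : ps a g y x l (2 * N) = ps b g y x l (2 * N)) (i : ℕ)
    (hi : i < N) (h : Apart a b g y x l i) :
    ∃ T, 1 ≤ T ∧ i + T < N ∧ (∀ c < T, Apart a b g y x l (i + c)) ∧ ¬ Apart a b g y x l (i + T) := by
  classical
  have hN : ¬ Apart a b g y x l (N - 1) := by
    rw [← letter_iff, show 2 * (N - 1) + 2 = 2 * N by omega]
    exact hcl
  have hex : ∃ T, ¬ Apart a b g y x l (i + T) := ⟨N - 1 - i, by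
    rwa [show i + (N - 1 - i) = N - 1 by omega]⟩
  obtain ⟨T, hT, hmin⟩ := Nat.findX hex
  refine ⟨T, ?_, ?_, ?_, hT⟩
  · by_contra hcon
    rw [show T = 0 by omega, Nat.add_zero] at hT
    exact hT h
  · by_contra hcon
    exact hmin (N - 1 - i) (by
      have : T ≠ 0 := by
        rintro rfl
        rw [Nat.add_zero] at hT
        exact hT h
      rcases Nat.lt_or_ge (N - 1 - i) T with h1 | h1
      · exact h1
      · omega) (by rwa [show i + (N - 1 - i) = N - 1 by omega])
  · intro c hc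
    by_contra hcon
    exact hmin c hc hcon

open Classical in
/-- the jump slots of an event -/
noncomputable def JS (N i T : ℕ) (l : Fin s) : Finset ℕ :=
  ((range T).filter fun c => PrivG a g y N x l (i + c)).filter
    (Jmp a b g y i T (ps a g y x l (2 * i)))

/-- a good event has many jump edges -/
lemma own_card {E N : ℕ} (hE : 4 ≤ E) (l : Fin s) (i T : ℕ) (hTN : i + T < N)
    (hs : ps a g y x l (2 * i) = ps b g y x l (2 * i))
    (hap : ∀ c < T, Apart a b g y x l (i + c)) (hend : ¬ Apart a b g y x l (i + T))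
    (v : ℕ) (h1 : i ≤ v) (h2 : v < i + T) (hv : Gd a g y E N x l v) :
    T ≤ E * (JS a b g y x N i T l).card := by
  classical
  obtain ⟨p, hp⟩ : ∃ p, p = ps a g y x l (2 * i) := ⟨_, rfl⟩
  have hpa : ∀ k, pos (prog a g) y (2 * i) p k = ps a g y x l (2 * i + k) := by
    intro k; rw [hp]; exact ps_add a g y x l i k
  have hpb : ∀ k, pos (prog b g) y (2 * i) p k = ps b g y x l (2 * i + k) := by
    intro k; rw [hp, hs]; exact ps_add b g y x l i k
  obtain ⟨G, hG⟩ : ∃ G, G = (range T).filter fun c => PrivG a g y N x l (i + c) := ⟨_, rfl⟩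
  obtain ⟨I, φ, hI, hm, hφ, hc⟩ := jump_count a b g y i T p (by
      intro c hc
      rw [hpa, hpb, show 2 * i + (2 * c + 1) = 2 * (i + c) + 1 by ring]
      exact hap c hc) (by
      rw [hpa, hpb, show 2 * i + (2 * T + 1) = 2 * (i + T) + 1 by ring]
      exact not_not.1 hend) G (by
      intro c hc
      rw [hG, mem_filter, mem_range] at hc
      refine ⟨hc.1, ?_⟩
      obtain ⟨m, hm, hu⟩ := hc.2
      refine ⟨m, hm, ?_⟩
      intro c' hc' m' hm' he
      unfold edc at he
      rw [hpa, hpa, show 2 * i + (2 * c + 1) = 2 * (i + c) + 1 by ring,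
        show 2 * i + (2 * c' + 1) = 2 * (i + c') + 1 by ring] at he
      have := (hu l (i + c') m' (by omega) hm' he).2
      omega)
  have hJ : G.filter (Jmp a b g y i T p) = JS a b g y x N i T l := by
    rw [JS, hG, hp]
  rw [hJ] at hc
  obtain ⟨hn, hns⟩ := hv
  have h3 := hn i (i + T) h1 h2 (by omega)
  rw [Nat.add_sub_cancel_left] at h3
  -- the number of bad slots in the window
  have h4 : T ≤ G.card + (Bd a g y N x l ∩ Ico i (i + T)).card := by
    have h5 : (range T).image (fun c => i + c) ⊆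
        G.image (fun c => i + c) ∪ (Bd a g y N x l ∩ Ico i (i + T)) := by
      intro u hu
      rw [mem_image] at hu
      obtain ⟨c, hc, rfl⟩ := hu
      rw [mem_range] at hc
      rw [mem_union, mem_inter, mem_Ico, Bd, mem_filter, mem_range, mem_image]
      by_cases h6 : PrivG a g y N x l (i + c)
      · left
        refine ⟨c, ?_, rfl⟩
        rw [hG, mem_filter, mem_range]
        exact ⟨hc, h6⟩
      · right
        exact ⟨⟨by omega, h6⟩, by omega, by omega⟩
    have hinj : Function.Injective (fun c : ℕ => i + c) := fun u w h => by simpa using h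
    have h6 := (card_le_card h5).trans (card_union_le _ _)
    rw [card_image_of_injective _ hinj, card_image_of_injective _ hinj, card_range] at h6
    exact h6
  by_contra hcon
  push Not at hcon
  apply hns
  refine ⟨i, i + T, h1, h2, by omega, I, φ, hI, hm, hφ, ?_⟩
  rw [Nat.add_sub_cancel_left]
  have h5 : 4 * (Bd a g y N x l ∩ Ico i (i + T)).card ≤
      (Bd a g y N x l ∩ Ico i (i + T)).card * E := by
    rw [Nat.mul_comm]; exact Nat.mul_le_mul le_rfl hE
  have h6 : 4 * (JS a b g y x N i T l).card ≤ E * (JS a b g y x N i T l).card :=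
    Nat.mul_le_mul hE le_rfl
  omega

open Classical in
/-- the data of one event with its chosen edge -/
lemma exists_dat {N : ℕ} (l : Fin s) (i T : ℕ) (o : Option (Fin q × Fin n))
    (ho : o ∈ (JS a b g y x N i T l).image fun c =>
      (g (i + c)).map fun m => ed y m (ps a g y x l (2 * (i + c) + 1))) :
    ∃ (d : Dat n) (f : Fin q × Fin n) (c : ℕ) (m : Lt q), o = some f ∧ d.i = 2 * i ∧
      d.p = ps a g y x l (2 * i) ∧ d.T = T ∧ d.k + 1 + d.t ≤ 2 * T + 1 ∧ d.t' ≤ 2 * T + 1 ∧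
      Ok (prog a g) (prog b g) y d f ∧ c < T ∧ PrivG a g y N x l (i + c) ∧ g (i + c) = some m ∧
      f = ed y m (ps a g y x l (2 * (i + c) + 1)) := by
  classical
  rw [mem_image] at ho
  obtain ⟨c, hc, rfl⟩ := ho
  rw [JS, mem_filter, mem_filter, mem_range] at hc
  obtain ⟨⟨hcT, hpr⟩, m, t, t', hm, ht, ht', hok⟩ := hc
  have he : edc (prog a g) y i (ps a g y x l (2 * i)) c m =
      ed y m (ps a g y x l (2 * (i + c) + 1)) := by
    unfold edc
    rw [ps_add, show 2 * i + (2 * c + 1) = 2 * (i + c) + 1 by ring]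
  refine ⟨_, _, c, m, ?_, rfl, rfl, rfl, ?_, ?_, hok, hcT, hpr, hm, he⟩
  · rw [hm, he]; rfl
  · show 2 * c + 1 + 1 + t ≤ 2 * T + 1
    omega
  · exact ht'

open Classical in
/-- **many good events give a coded set** -/
theorem events_good {E N k₀ : ℕ} (hE : 4 ≤ E) (hk : 1 ≤ k₀) (hx : Function.Injective x)
    (hcl : ∀ l, ps a g y x l (2 * N) = ps b g y x l (2 * N))
    (h : (∃ v < N, k₀ ≤ ((univ : Finset (Fin s)).filter fun l =>
        Apart a b g y x l v ∧ Gd a g y E N x l v).card) ∨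
      k₀ ≤ (((univ : Finset (Fin s)) ×ˢ range N).filter fun e =>
        Start a b g y x e.1 e.2 ∧ Gd a g y E N x e.1 e.2).card) :
    ∃ W ⊆ Box n N, GoodS (prog a g) (prog b g) y W ∧ k₀ ≤ 2 * (4 * E + 1) * W.card := by
  classical
  -- the lengths
  have hT : ∀ e : Fin s × ℕ, ∃ T, e.2 < N → Start a b g y x e.1 e.2 →
      1 ≤ T ∧ e.2 + T < N ∧ (∀ c < T, Apart a b g y x e.1 (e.2 + c)) ∧
        ¬ Apart a b g y x e.1 (e.2 + T) := by
    intro e
    by_cases h1 : e.2 < N ∧ Start a b g y x e.1 e.2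
    · obtain ⟨T, hT⟩ := exists_len a b g y x e.1 (hcl e.1) e.2 h1.1 h1.2.2
      exact ⟨T, fun _ _ => hT⟩
    · exact ⟨0, fun h2 h3 => absurd ⟨h2, h3⟩ h1⟩
  choose T hT using hT
  obtain ⟨V, hV⟩ : ∃ V, V = ((univ : Finset (Fin s)) ×ˢ range N).filter fun e =>
    Start a b g y x e.1 e.2 ∧ ∃ v, e.2 ≤ v ∧ v < e.2 + T e ∧ Gd a g y E N x e.1 v := ⟨_, rfl⟩
  have hVm : ∀ e, e ∈ V ↔ e.2 < N ∧ Start a b g y x e.1 e.2 ∧
      ∃ v, e.2 ≤ v ∧ v < e.2 + T e ∧ Gd a g y E N x e.1 v := by
    intro e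
    rw [hV, mem_filter, mem_product, mem_range]
    simp
  -- the number of events
  have hVc : k₀ ≤ V.card := by
    rcases h with ⟨v, hv, hc⟩ | hc
    · refine hc.trans ?_
      have hex : ∀ l, ∃ i, Apart a b g y x l v → i ≤ v ∧ Start a b g y x l i ∧
          ∀ u, i ≤ u → u ≤ v → Apart a b g y x l u := by
        intro l
        by_cases h1 : Apart a b g y x l v
        · obtain ⟨i, hi⟩ := start_of_apart a b g y x l v h1
          exact ⟨i, fun _ => hi⟩
        · exact ⟨0, fun h2 => absurd h2 h1⟩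
      choose i hi using hex
      refine card_le_card_of_injOn (fun l => (l, i l)) ?_ ?_
      · intro l hl
        rw [mem_coe, mem_filter] at hl
        obtain ⟨-, h1, h2⟩ := hl
        obtain ⟨h3, h4, h5⟩ := hi l h1
        rw [mem_coe, hVm]
        refine ⟨by show i l < N; omega, h4, v, h3, ?_, h2⟩
        obtain ⟨-, -, -, h6⟩ := hT (l, i l) (by show i l < N; omega) h4
        by_contra hcon
        apply h6
        exact h5 _ (by show i l ≤ i l + T (l, i l); omega)
          (by show i l + T (l, i l) ≤ v; simp only [not_lt] at hcon; exact hcon)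
      · intro l _ l' _ hll
        exact congrArg Prod.fst hll
    · refine hc.trans (card_le_card ?_)
      intro e he
      rw [mem_filter, mem_product, mem_range] at he
      obtain ⟨⟨-, h1⟩, h2, h3⟩ := he
      rw [hVm]
      obtain ⟨h4, -⟩ := hT e h1 h2
      exact ⟨h1, h2, e.2, le_rfl, by omega, h3⟩
  -- own edges and used edges
  obtain ⟨own, hown⟩ : ∃ own : Fin s × ℕ → Finset (Option (Fin q × Fin n)), own = fun e =>
    (JS a b g y x N e.2 (T e) e.1).image fun c =>
      (g (e.2 + c)).map fun m => ed y m (ps a g y x e.1 (2 * (e.2 + c) + 1)) := ⟨_, rfl⟩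
  obtain ⟨use, huse⟩ : ∃ use : Fin s × ℕ → Finset (Option (Fin q × Fin n)), use = fun e =>
    (range (T e)).image fun c =>
      (g (e.2 + c)).map fun m => ed y m (ps b g y x e.1 (2 * (e.2 + c) + 1)) := ⟨_, rfl⟩
  -- windows of one token are disjoint
  have hwin : ∀ e ∈ V, ∀ e' ∈ V, e.1 = e'.1 → ∀ v, e.2 ≤ v → v < e.2 + T e → e'.2 ≤ v →
      v < e'.2 + T e' → e = e' := by
    have key : ∀ e ∈ V, ∀ e' ∈ V, e.1 = e'.1 → ∀ v, e.2 ≤ v → v < e.2 + T e → e'.2 ≤ v →
        v < e'.2 + T e' → ¬ e.2 < e'.2 := by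
      intro e he e' he' h1 v h2 h3 h4 h5 hlt
      rw [hVm] at he he'
      obtain ⟨-, -, h6, -⟩ := hT e he.1 he.2.1
      have h7 := h6 (e'.2 - 1 - e.2) (by omega)
      rw [show e.2 + (e'.2 - 1 - e.2) = e'.2 - 1 by omega] at h7
      have h8 := he'.2.1.1
      rw [show 2 * e'.2 = 2 * (e'.2 - 1) + 2 by omega, ← h1] at h8
      exact (letter_iff a b g y x e.1 (e'.2 - 1)).1 h8 h7
    intro e he e' he' h1 v h2 h3 h4 h5
    have k1 := key e he e' he' h1 v h2 h3 h4 h5
    have k2 := key e' he' e he h1.symm v h4 h5 h2 h3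
    exact Prod.ext h1 (by omega)
  have hVne : V.Nonempty := card_pos.1 (by omega)
  have hc1 : ∀ e ∈ V, 1 ≤ T e ∧ T e ≤ E * (own e).card := by
    intro e he
    rw [hVm] at he
    obtain ⟨h1, h2, v, h3, h4, h5⟩ := he
    obtain ⟨h6, h7, h8, h9⟩ := hT e h1 h2
    refine ⟨h6, ?_⟩
    have h10 := own_card a b g y x hE e.1 e.2 (T e) h7 h2.1 h8 h9 v h3 h4 h5
    rw [hown]
    simp only
    rw [card_image_of_injOn]
    · exact h10
    · intro c hc c' hc' hcc
      rw [mem_coe, JS, mem_filter, mem_filter, mem_range] at hc hc'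
      obtain ⟨⟨hc1, m, hm, hu⟩, -⟩ := hc
      obtain ⟨⟨hc1', m', hm', hu'⟩, -⟩ := hc'
      simp only [hm, hm', Option.map_some, Option.some.injEq] at hcc
      have := (hu e.1 (e.2 + c') m' (by omega) hm' hcc.symm).2
      omega
  have hc2 : ∀ e ∈ V, ∀ e' ∈ V, e ≠ e' → Disjoint (own e) (own e') := by
    intro e he e' he' hne
    rw [disjoint_left]
    intro o ho ho'
    rw [hown] at ho ho'
    obtain ⟨d, f, c, m, h2, -, -, -, -, -, -, h9, h10, h11, h12⟩ :=
      exists_dat a b g y x e.1 e.2 (T e) o ho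
    obtain ⟨d', f', c', m', h2', -, -, -, -, -, -, h9', h10', h11', h12'⟩ :=
      exists_dat a b g y x e'.1 e'.2 (T e') o ho'
    obtain ⟨m₂, hm₂, hu₂⟩ := h10
    rw [h11] at hm₂
    obtain rfl := Option.some.inj hm₂
    have h13 := (hVm e').1 he'
    obtain ⟨-, h14, -⟩ := hT e' h13.1 h13.2.1
    have h15 : f = f' := by rw [h2] at h2'; exact Option.some.inj h2'
    obtain ⟨h16, h17⟩ := hu₂ e'.1 (e'.2 + c') m' (by omega) h11' (by rw [← h12', ← h12, h15])
    exact hne (hwin e he e' he' h16.symm (e.2 + c) (by omega) (by omega) (by omega) (by omega))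
  have hc3 : ∀ e ∈ V, (use e).card ≤ T e := by
    intro e _
    rw [huse]
    exact card_image_le.trans (by rw [card_range])
  obtain ⟨W, hWV, ξ, hξ, hξ', hWc⟩ := choice V hVne T own use E hc1 hc2 hc3
  -- the data
  have hdat : ∀ e : Fin s × ℕ, ∃ (d : Dat n) (f : Option (Fin q × Fin n)) (c : ℕ), e ∈ W →
      f = ξ e ∧ d.i = 2 * e.2 ∧
      d.p = ps a g y x e.1 (2 * e.2) ∧ d.T = T e ∧ d.k + 1 + d.t ≤ 2 * T e + 1 ∧
      d.t' ≤ 2 * T e + 1 ∧ ∃ f', f = some f' ∧ 
      Ok (prog a g) (prog b g) y d f' ∧ c < T e ∧ PrivG a g y N x e.1 (e.2 + c) ∧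
      ∃ m, g (e.2 + c) = some m ∧ f' = ed y m (ps a g y x e.1 (2 * (e.2 + c) + 1)) := by
    intro e
    by_cases he : e ∈ W
    · have h1 := hξ e he
      rw [hown] at h1
      obtain ⟨d, f, c, m, h2, h3, h4, h5, h6, h7, h8, h9, h10, h11, h12⟩ :=
        exists_dat a b g y x e.1 e.2 (T e) (ξ e) h1
      exact ⟨d, ξ e, c, fun _ => ⟨rfl, h3, h4, h5, h6, h7, f, h2, h8, h9, h10, m, h11, h12⟩⟩
    · exact ⟨⟨0, x e.1, 0, 0, 0, 0⟩, none, 0, fun h => absurd h he⟩
  choose D fo ci hD using hdat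
  have hDinj : ∀ e ∈ W, ∀ e' ∈ W, D e = D e' → e = e' := by
    intro e he e' he' h1
    obtain ⟨-, h2, h3, -⟩ := hD e he
    obtain ⟨-, h2', h3', -⟩ := hD e' he'
    rw [h1] at h2 h3
    have h4 : e.2 = e'.2 := by omega
    have h5 : ps a g y x e.1 (2 * e.2) = ps a g y x e'.1 (2 * e.2) := by
      rw [← h3, h3', h4]
    exact Prod.ext (hx (pos_inj _ _ _ _ h5)) h4
  have hWne : W.Nonempty := by
    rw [← card_pos]
    by_contra hcon
    have : W.card = 0 := by omega
    rw [this] at hWc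
    have := hVne.card_pos
    omega
  obtain ⟨e₀, he₀⟩ := hWne
  obtain ⟨-, -, -, -, -, -, f₀, -⟩ := hD e₀ he₀
  -- the edges as a function of the data
  have hEd : ∀ d : Dat n, ∃ f : Fin q × Fin n, ∀ e ∈ W, D e = d → ξ e = some f := by
    intro d
    by_cases hd : ∃ e ∈ W, D e = d
    · obtain ⟨e, he, rfl⟩ := hd
      obtain ⟨h1, -, -, -, -, -, f, h2, -⟩ := hD e he
      refine ⟨f, fun e' he' h3 => ?_⟩
      rw [hDinj e' he' e he h3, ← h1, h2]
    · exact ⟨f₀, fun e he h1 => absurd ⟨e, he, h1⟩ hd⟩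
  choose ed' hed' using hEd
  refine ⟨W.image D, ?_, ⟨ed', ?_, ?_⟩, ?_⟩
  · intro d hd
    rw [mem_image] at hd
    obtain ⟨e, he, rfl⟩ := hd
    obtain ⟨-, h2, -, h4, h5, h6, -⟩ := hD e he
    have h7 := (hVm e).1 (hWV he)
    obtain ⟨h8, h9, -⟩ := hT e h7.1 h7.2.1
    apply mem_Box <;> omega
  · intro d hd
    rw [mem_image] at hd
    obtain ⟨e, he, rfl⟩ := hd
    obtain ⟨h1, -, -, -, -, -, f, h2, h3, -⟩ := hD e he
    have h4 := hed' (D e) e he rfl
    rw [← h1, h2] at h4
    rw [← Option.some.inj h4]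
    exact h3
  · intro d hd d' hd' hne hTT
    rw [mem_image] at hd hd'
    obtain ⟨e, he, rfl⟩ := hd
    obtain ⟨e', he', rfl⟩ := hd'
    have hee : e ≠ e' := fun h => hne (by rw [h])
    obtain ⟨k1, k2, k3, k4, k5, k6, f, k7, k8, k9, k10, m, k11, k12⟩ := hD e he
    obtain ⟨j1, j2, j3, j4, j5, j6, f', j7, j8, j9, j10, m', j11, j12⟩ := hD e' he'
    have h4 := hed' (D e') e' he' rfl
    have h5 : ed' (D e') = f' := by
      rw [← j1, j7] at h4
      exact (Option.some.inj h4).symm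
    rw [h5]
    have h6 := (hVm e).1 (hWV he)
    have h6' := (hVm e').1 (hWV he')
    obtain ⟨h7, h8, -⟩ := hT e h6.1 h6.2.1
    obtain ⟨h7', h8', -⟩ := hT e' h6'.1 h6'.2.1
    rintro (hu | hu)
    · -- the first path
      obtain ⟨k, hk1, m₁, hm₁, hk2⟩ := hu
      rw [k2] at hm₁ hk2
      obtain ⟨v, hv, hgv⟩ := prog_inr hm₁
      rw [k3, ps_add, hv, j12] at hk2
      obtain ⟨m₂, hm₂, hu₂⟩ := j10
      rw [j11] at hm₂
      obtain rfl := Option.some.inj hm₂
      obtain ⟨h9, h10⟩ := hu₂ e.1 v m₁ (by omega) hgv hk2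
      apply hee
      apply hwin e (hWV he) e' (hWV he') h9 v <;> omega
    · -- the second path
      obtain ⟨k, hk1, m₁, hm₁, hk2⟩ := hu
      rw [k2] at hm₁ hk2
      obtain ⟨v, hv, hgv⟩ := prog_inr hm₁
      rw [k3, h6.2.1.1, ps_add, hv] at hk2
      apply hξ' e he e' he' hee (by omega)
      rw [← j1, j7, huse, mem_image]
      refine ⟨v - e.2, mem_range.2 (by omega), ?_⟩
      rw [show e.2 + (v - e.2) = v by omega, hgv, ← hk2]
      rfl
  · rw [card_image_of_injOn (fun e he e' he' h1 => hDinj e he e' he' h1)]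
    exact hVc.trans hWc

end

end Pool.Agent.Helper34.IC
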