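import Pool.Agent.Helper1.TP.Defs
import Pool.Agent.Helper34.IC.Events

/-!
# Project FS (MP_75608d_al), interval route: most pairs (token, slot) are good
-/

set_option autoImplicit false

namespace Pool.Agent.Helper34.IC

open Equiv Finset Pool.Agent.Helper4.FS
open Pool.Agent.Helper1.TP (hp nl NoShift crossed Fresh Closed Unc)

variable {q n s : ℕ}

open Classical in
/-- the crossings which are not private -/
lemma nonpriv_card (a : ℕ → Perm (Fin n)) (g : ℕ → Option (Lt q)) (y : World q n) (N F : ℕ)
    (x : Fin s → Fin n) (h : Fresh y a g N F x) :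
    (((univ : Finset (Fin s)) ×ˢ range N).filter fun e =>
      g e.2 ≠ none ∧ ¬ PrivG a g y N x e.1 e.2).card ≤ 2 * F := by
  classical
  obtain ⟨C, hC⟩ : ∃ C, C = ((univ : Finset (Fin s)) ×ˢ range N).filter fun e : Fin s × ℕ =>
    g e.2 ≠ none := ⟨_, rfl⟩
  obtain ⟨ε, hε⟩ : ∃ ε : Fin s × ℕ → Option (Fin q × Fin n), ε = fun e =>
    (g e.2).map fun m => ed y m (ps a g y x e.1 (2 * e.2 + 1)) := ⟨_, rfl⟩
  have hCm : ∀ e, e ∈ C ↔ e.2 < N ∧ g e.2 ≠ none := by
    intro e
    rw [hC, mem_filter, mem_product, mem_range]
    simp
  have hCc : C.card = s * nl g N := by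
    have : C = (univ : Finset (Fin s)) ×ˢ ((range N).filter fun v => g v ≠ none) := by
      ext e
      rw [hCm, mem_product, mem_filter, mem_range]
      simp
    rw [this, card_product, card_univ, Fintype.card_fin]
    rfl
  have himg : (crossed y a g N x).ncard ≤ (C.image ε).card := by
    have h1 : some '' (crossed y a g N x) ⊆ ((C.image ε : Finset _) : Set _) := by
      rintro o ⟨e, ⟨l, k, hk, m, hm, he⟩, rfl⟩
      rw [zero_add] at hm
      obtain ⟨v, hv, hg⟩ := prog_inr hm
      rw [mem_coe, mem_image]
      refine ⟨(l, v), ?_, ?_⟩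
      · rw [hCm]
        exact ⟨by show v < N; omega, by show g v ≠ none; rw [hg]; simp⟩
      · rw [hε]
        simp only
        rw [hg, ← he, ← hv]
        rfl
    calc (crossed y a g N x).ncard = (some '' (crossed y a g N x)).ncard :=
          (Set.ncard_image_of_injective _ (Option.some_injective _)).symm
      _ ≤ ((C.image ε : Finset _) : Set _).ncard := Set.ncard_le_ncard h1 (Set.toFinite _)
      _ = _ := Set.ncard_coe_finset _
  have h2 : s * nl g N ≤ (C.image ε).card + F := h.trans (by omega)
  -- fibers
  obtain ⟨D, hD⟩ : ∃ D, D = ((univ : Finset (Fin s)) ×ˢ range N).filter fun e : Fin s × ℕ =>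
      g e.2 ≠ none ∧ ¬ PrivG a g y N x e.1 e.2 := ⟨_, rfl⟩
  have hDC : D ⊆ C := by
    intro e he
    rw [hD, mem_filter] at he
    rw [hC, mem_filter]
    exact ⟨he.1, he.2.1⟩
  have hfib : ∀ o ∈ C.image ε, (D.filter fun e => ε e = o).card ≤
      2 * ((C.filter fun e => ε e = o).card - 1) := by
    intro o ho
    rcases (D.filter fun e => ε e = o).eq_empty_or_nonempty with h3 | ⟨e, he⟩
    · rw [h3]; simp
    · have h4 : (D.filter fun e => ε e = o).card ≤ (C.filter fun e => ε e = o).card :=
        card_le_card (filter_subset_filter _ hDC)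
      have h5 : 2 ≤ (C.filter fun e => ε e = o).card := by
        rw [mem_filter] at he
        obtain ⟨heD, heo⟩ := he
        have heC := hDC heD
        rw [hD, mem_filter] at heD
        obtain ⟨-, hgn, hnp⟩ := heD
        obtain ⟨m, hm⟩ := Option.ne_none_iff_exists'.1 hgn
        unfold PrivG at hnp
        push Not at hnp
        obtain ⟨l', v', m', hv', hm', hed, hne⟩ := hnp m hm
        have h6 : (l', v') ∈ C := by
          rw [hCm]
          exact ⟨hv', by show g v' ≠ none; rw [hm']; simp⟩
        have h7 : ε (l', v') = o := by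
          rw [← heo, hε]
          simp only
          rw [hm', hm]
          exact congrArg some hed
        have h8 : e ≠ (l', v') := by
          intro h9
          have h10 : l' = e.1 := by rw [h9]
          have h11 : v' = e.2 := by rw [h9]
          exact hne h10 h11
        calc 2 = ({e, (l', v')} : Finset (Fin s × ℕ)).card := (card_pair h8).symm
          _ ≤ _ := by
            apply card_le_card
            intro z hz
            rw [mem_insert, mem_singleton] at hz
            rw [mem_filter]
            rcases hz with rfl | rfl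
            · exact ⟨heC, heo⟩
            · exact ⟨h6, h7⟩
      omega
  have hsumC : C.card = ∑ o ∈ C.image ε, (C.filter fun e => ε e = o).card :=
    card_eq_sum_card_image _ _
  have hsumD : D.card = ∑ o ∈ C.image ε, (D.filter fun e => ε e = o).card := by
    rw [card_eq_sum_card_fiberwise (f := ε) (t := C.image ε)]
    intro e he
    exact mem_coe.2 (mem_image_of_mem _ (hDC he))
  have hpos : ∀ o ∈ C.image ε, 1 ≤ (C.filter fun e => ε e = o).card := by
    intro o ho
    rw [mem_image] at ho
    obtain ⟨e, he, heo⟩ := ho
    exact card_pos.2 ⟨e, mem_filter.2 ⟨he, heo⟩⟩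
  have h9 : ∑ o ∈ C.image ε, ((C.filter fun e => ε e = o).card - 1) + (C.image ε).card = C.card := by
    rw [hsumC, card_eq_sum_ones, ← sum_add_distrib]
    refine sum_congr rfl fun o ho => ?_
    have := hpos o ho
    omega
  have h10 : D.card ≤ 2 * ∑ o ∈ C.image ε, ((C.filter fun e => ε e = o).card - 1) := by
    rw [hsumD, mul_sum]
    exact sum_le_sum hfib
  rw [← hD]
  omega

open Classical in
/-- **most pairs are good** -/
theorem bad_card (a : ℕ → Perm (Fin n)) (g : ℕ → Option (Lt q)) (y : World q n) (E N F P : ℕ)
    (x : Fin s → Fin n) (h : Fresh y a g N F x) (hP : NoShift g N P) :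
    (((univ : Finset (Fin s)) ×ˢ range N).filter fun e => ¬ Gd a g y E N x e.1 e.2).card ≤
      4 * E * (s * (N - nl g N) + 2 * F) + s * (12 * P) := by
  classical
  have h1 : (((univ : Finset (Fin s)) ×ˢ range N).filter fun e =>
      ¬ Gd a g y E N x e.1 e.2).card =
      ∑ l : Fin s, ((range N).filter fun v => ¬ Gd a g y E N x l v).card := by
    rw [card_filter, sum_product]
    refine sum_congr rfl fun l _ => ?_
    rw [card_filter]
  have h2 : ∀ l : Fin s, ((range N).filter fun v => ¬ Gd a g y E N x l v).card ≤
      4 * E * (Bd a g y N x l).card + 12 * P := by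
    intro l
    have h3 : ((range N).filter fun v => ¬ Gd a g y E N x l v) ⊆
        ((range N).filter fun v => ¬ NiceAt (Bd a g y N x l) E N v) ∪
        ((range N).filter fun v => ∃ c d, c ≤ v ∧ v < d ∧ d ≤ N ∧ ShW g c d) := by
      intro v hv
      rw [mem_filter] at hv
      rw [mem_union, mem_filter, mem_filter]
      unfold Gd at hv
      obtain ⟨hvN, hv⟩ := hv
      by_cases h4 : NiceAt (Bd a g y N x l) E N v
      · right
        refine ⟨hvN, ?_⟩
        by_contra hcon
        exact hv ⟨h4, hcon⟩
      · left
        exact ⟨hvN, h4⟩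
    exact (card_le_card h3).trans ((card_union_le _ _).trans (Nat.add_le_add (nice_card _ E N)
      (shift_card g N P (fun I φ hI hm h' => hP I φ hI hm h'))))
  have h4 : ∑ l : Fin s, (Bd a g y N x l).card ≤ s * (N - nl g N) + 2 * F := by
    have h5 : ∀ l : Fin s, (Bd a g y N x l).card ≤ (N - nl g N) +
        ((range N).filter fun v => g v ≠ none ∧ ¬ PrivG a g y N x l v).card := by
      intro l
      have h6 : Bd a g y N x l ⊆ ((range N).filter fun v => ¬ g v ≠ none) ∪
          ((range N).filter fun v => g v ≠ none ∧ ¬ PrivG a g y N x l v) := by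
        intro v hv
        unfold Bd at hv
        rw [mem_filter] at hv
        rw [mem_union, mem_filter, mem_filter]
        tauto
      have h7 : ((range N).filter fun v => ¬ g v ≠ none).card = N - nl g N := by
        have := card_filter_add_card_filter_not (s := range N) (fun v => g v ≠ none)
        rw [card_range] at this
        unfold nl
        omega
      exact (card_le_card h6).trans ((card_union_le _ _).trans (by rw [h7]))
    calc _ ≤ ∑ l : Fin s, ((N - nl g N) +
          ((range N).filter fun v => g v ≠ none ∧ ¬ PrivG a g y N x l v).card) :=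
          sum_le_sum fun l _ => h5 l
      _ = s * (N - nl g N) +
          ∑ l : Fin s, ((range N).filter fun v => g v ≠ none ∧ ¬ PrivG a g y N x l v).card := by
          rw [sum_add_distrib, sum_const, card_univ, Fintype.card_fin, smul_eq_mul]
      _ ≤ _ := by
          refine Nat.add_le_add le_rfl ?_
          refine le_trans (le_of_eq ?_) (nonpriv_card a g y N F x h)
          rw [card_filter, sum_product]
          refine sum_congr rfl fun l _ => ?_
          rw [card_filter]
  rw [h1]
  calc _ ≤ ∑ l : Fin s, (4 * E * (Bd a g y N x l).card + 12 * P) := sum_le_sum fun l _ => h2 l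
    _ = 4 * E * ∑ l : Fin s, (Bd a g y N x l).card + s * (12 * P) := by
        rw [sum_add_distrib, ← mul_sum, sum_const, card_univ, Fintype.card_fin, smul_eq_mul]
    _ ≤ _ := Nat.add_le_add (Nat.mul_le_mul le_rfl h4) le_rfl

end Pool.Agent.Helper34.IC
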