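import Pool.Agent.Helper4.FS.Edge

/-!
# Project FS (MP_75608d_al), interval route: coding of worlds

Two programs `P` and `P'` are run from a common place. An event is a piece of the two paths in which
the first path crosses an edge `e` once, the second path does not cross `e`, and the two paths meet
afterwards: `e` is determined by the rest of the world. Many events are coded at once, in increasing
order of their lengths `T`.
-/

set_option autoImplicit false

namespace Pool.Agent.Helper34.IC

open Equiv Pool.Agent.Helper4.FS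

variable {q n : ℕ}

/-- the data of an event: both paths are at `p` before step `i`; the first path crosses the coded
edge in step `i + k` and after `t` further steps it is where the second path is after `t'` steps;
`T` is the length of the event -/
structure Dat (n : ℕ) where
  i : ℕ
  p : Fin n
  T : ℕ
  k : ℕ
  t : ℕ
  t' : ℕ
  deriving DecidableEq

/-- the edge `e` is determined by the event with the data `d` -/
def Ok (P P' : ℕ → Stp q n) (y : World q n) (d : Dat n) (e : Fin q × Fin n) : Prop :=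
  (∃ m, P (d.i + d.k) = Sum.inr m ∧ ed y m (pos P y d.i d.p d.k) = e) ∧
  ¬ Uses P y d.i d.p d.k e ∧
  ¬ Uses P y (d.i + (d.k + 1)) (pos P y d.i d.p (d.k + 1)) d.t e ∧
  ¬ Uses P' y d.i d.p d.t' e ∧
  pos P y (d.i + (d.k + 1)) (pos P y d.i d.p (d.k + 1)) d.t = pos P' y d.i d.p d.t'

/-- the edge `f` is used by the event with the data `d` -/
def UseE (P P' : ℕ → Stp q n) (y : World q n) (d : Dat n) (f : Fin q × Fin n) : Prop :=
  Uses P y d.i d.p (d.k + 1 + d.t) f ∨ Uses P' y d.i d.p d.t' f

/-- the events of `W` determine different edges, and no event uses the edge of an event which is at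
least as long -/
def GoodS (P P' : ℕ → Stp q n) (y : World q n) (W : Finset (Dat n)) : Prop :=
  ∃ e : Dat n → Fin q × Fin n, (∀ d ∈ W, Ok P P' y d (e d)) ∧
    ∀ d ∈ W, ∀ d' ∈ W, d ≠ d' → d.T ≤ d'.T → ¬ UseE P P' y d (e d')

lemma uses_shift {P : ℕ → Stp q n} {y : World q n} {i : ℕ} {x : Fin n} {s t : ℕ}
    {e : Fin q × Fin n} (h : Uses P y (i + s) (pos P y i x s) t e) : Uses P y i x (s + t) e := by
  obtain ⟨k, hk, m, hm, he⟩ := h
  refine ⟨s + k, by omega, m, by rw [← Nat.add_assoc]; exact hm, ?_⟩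
  rw [pos_add]; exact he

/-- a world changed at unused edges -/
lemma ok_sw {P P' : ℕ → Stp q n} {y : World q n} {d : Dat n} {j : Fin q} {r u : Fin n}
    (h1 : ¬ UseE P P' y d (j, r)) (h2 : ¬ UseE P P' y d (j, u)) {e : Fin q × Fin n}
    (h : Ok P P' y d e) : Ok P P' (sw y j r u) d e := by
  have a1 : ¬ Uses P y d.i d.p (d.k + 1 + d.t) (j, r) := fun h => h1 (Or.inl h)
  have a2 : ¬ Uses P y d.i d.p (d.k + 1 + d.t) (j, u) := fun h => h2 (Or.inl h)
  have b1 : ¬ Uses P' y d.i d.p d.t' (j, r) := fun h => h1 (Or.inr h)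
  have b2 : ¬ Uses P' y d.i d.p d.t' (j, u) := fun h => h2 (Or.inr h)
  obtain ⟨⟨m, hm, he⟩, c1, c2, c3, c4⟩ := h
  have p1 : pos P (sw y j r u) d.i d.p d.k = pos P y d.i d.p d.k :=
    pos_sw _ (fun h => a1 (h.mono (by omega))) (fun h => a2 (h.mono (by omega)))
  have p2 : pos P (sw y j r u) d.i d.p (d.k + 1) = pos P y d.i d.p (d.k + 1) :=
    pos_sw _ (fun h => a1 (h.mono (by omega))) (fun h => a2 (h.mono (by omega)))
  have p3 : pos P' (sw y j r u) d.i d.p d.t' = pos P' y d.i d.p d.t' := pos_sw _ b1 b2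
  have s1 : ¬ Uses P y (d.i + (d.k + 1)) (pos P y d.i d.p (d.k + 1)) d.t (j, r) :=
    fun h => a1 (uses_shift h)
  have s2 : ¬ Uses P y (d.i + (d.k + 1)) (pos P y d.i d.p (d.k + 1)) d.t (j, u) :=
    fun h => a2 (uses_shift h)
  refine ⟨⟨m, hm, ?_⟩, ?_, ?_, ?_, ?_⟩
  · rw [p1, (lp_sw (fun h => a1 ⟨d.k, by omega, m, hm, h⟩)
      (fun h => a2 ⟨d.k, by omega, m, hm, h⟩)).2]
    exact he
  · rw [uses_sw _ (fun h => a1 (h.mono (by omega))) (fun h => a2 (h.mono (by omega)))]
    exact c1
  · rw [p2, uses_sw _ s1 s2]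
    exact c2
  · rw [uses_sw _ b1 b2]
    exact c3
  · rw [p2, p3, pos_sw _ s1 s2]
    exact c4

lemma useE_sw {P P' : ℕ → Stp q n} {y : World q n} {d : Dat n} {j : Fin q} {r u : Fin n}
    (h1 : ¬ UseE P P' y d (j, r)) (h2 : ¬ UseE P P' y d (j, u)) (f : Fin q × Fin n) :
    UseE P P' (sw y j r u) d f ↔ UseE P P' y d f := by
  unfold UseE
  rw [uses_sw _ (fun h => h1 (Or.inl h)) (fun h => h2 (Or.inl h)),
    uses_sw _ (fun h => h1 (Or.inr h)) (fun h => h2 (Or.inr h))]

/-- the finite set of the edges used by an event -/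
noncomputable def usedD (P P' : ℕ → Stp q n) (y : World q n) (d : Dat n) :
    Finset (Fin q × Fin n) :=
  usedSet P y d.i d.p (d.k + 1 + d.t) ∪ usedSet P' y d.i d.p d.t'

lemma mem_usedD {P P' : ℕ → Stp q n} {y : World q n} {d : Dat n} {f : Fin q × Fin n} :
    f ∈ usedD P P' y d ↔ UseE P P' y d f := by
  unfold usedD UseE
  rw [Finset.mem_union, mem_usedSet, mem_usedSet]

lemma card_usedD (P P' : ℕ → Stp q n) (y : World q n) (d : Dat n) :
    (usedD P P' y d).card ≤ d.k + 1 + d.t + d.t' :=
  (Finset.card_union_le _ _).trans (Nat.add_le_add (card_usedSet_le _ _ _ _ _)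
    (card_usedSet_le _ _ _ _ _))

/-- decoding of the edge of one event -/
lemma decode {P P' : ℕ → Stp q n} {y y' : World q n} {d : Dat n} {m : Lt q} {r r' u u' : Fin n}
    (hm : P (d.i + d.k) = Sum.inr m) (hO : Ok P P' y d (m.1, r)) (hO' : Ok P P' y' d (m.1, r'))
    (hu : ¬ UseE P P' y d (m.1, u)) (hu' : ¬ UseE P P' y' d (m.1, u'))
    (h : sw y m.1 r u = sw y' m.1 r' u') : y = y' ∧ u = u' := by
  obtain ⟨⟨m₁, hm₁, he⟩, c1, c2, c3, c4⟩ := hO
  obtain ⟨⟨m₂, hm₂, he'⟩, c1', c2', c3', c4'⟩ := hO'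
  have e1 : m₁ = m := by rw [hm] at hm₁; exact (Sum.inr.inj hm₁).symm
  have e2 : m₂ = m := by rw [hm] at hm₂; exact (Sum.inr.inj hm₂).symm
  rw [e1] at he
  rw [e2] at he'
  have a2 : ¬ Uses P y d.i d.p (d.k + 1 + d.t) (m.1, u) := fun h => hu (Or.inl h)
  have a2' : ¬ Uses P y' d.i d.p (d.k + 1 + d.t) (m.1, u') := fun h => hu' (Or.inl h)
  have b2 : ¬ Uses P' y d.i d.p d.t' (m.1, u) := fun h => hu (Or.inr h)
  have b2' : ¬ Uses P' y' d.i d.p d.t' (m.1, u') := fun h => hu' (Or.inr h)
  obtain ⟨Y, hY⟩ : ∃ Y, Y = sw y m.1 r u := ⟨_, rfl⟩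
  have hY' : Y = sw y' m.1 r' u' := hY.trans h
  -- the position before the crossing
  have p1 : pos P Y d.i d.p d.k = pos P y d.i d.p d.k := by
    rw [hY]; exact pos_sw _ c1 (fun h => a2 (h.mono (by omega)))
  have p1' : pos P Y d.i d.p d.k = pos P y' d.i d.p d.k := by
    rw [hY']; exact pos_sw _ c1' (fun h => a2' (h.mono (by omega)))
  have hp : pos P y d.i d.p d.k = pos P y' d.i d.p d.k := p1.symm.trans p1'
  -- the second path
  have p2 : pos P' Y d.i d.p d.t' = pos P' y d.i d.p d.t' := by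
    rw [hY]; exact pos_sw _ c3 b2
  have p2' : pos P' Y d.i d.p d.t' = pos P' y' d.i d.p d.t' := by
    rw [hY']; exact pos_sw _ c3' b2'
  -- back along the first path
  have p3 : pos P Y (d.i + (d.k + 1)) (pos P y d.i d.p (d.k + 1)) d.t = pos P' Y d.i d.p d.t' := by
    rw [p2, ← c4, hY]
    exact pos_sw _ c2 (fun h => a2 (uses_shift h))
  have p3' : pos P Y (d.i + (d.k + 1)) (pos P y' d.i d.p (d.k + 1)) d.t =
      pos P' Y d.i d.p d.t' := by
    rw [p2', ← c4', hY']
    exact pos_sw _ c2' (fun h => a2' (uses_shift h))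
  have he0 : pos P y d.i d.p (d.k + 1) = pos P y' d.i d.p (d.k + 1) :=
    pos_inj P Y _ _ (p3.trans p3'.symm)
  have hel : pos P y d.i d.p (d.k + 1) = Helper4.FS.lp y m (pos P y d.i d.p d.k) := by
    rw [pos_succ, hm]; rfl
  have hel' : pos P y' d.i d.p (d.k + 1) = Helper4.FS.lp y' m (pos P y' d.i d.p d.k) := by
    rw [pos_succ, hm]; rfl
  rw [hel, hel'] at he0
  obtain ⟨p, hpdef⟩ : ∃ p, p = pos P y d.i d.p d.k := ⟨_, rfl⟩
  rw [← hp] at he0 he'
  rw [← hpdef] at he0 he he'
  obtain ⟨j, σ⟩ := m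
  have hr : r = (ed y (j, σ) p).2 := by rw [he]
  have hr' : r' = (ed y' (j, σ) p).2 := by rw [he']
  have fin : r = r' → u = u' → y = y' ∧ u = u' := by
    intro h1 h2
    refine ⟨?_, h2⟩
    have h3 : sw Y j r u = y := by rw [hY]; exact sw_sw _ _ _ _
    have h4 : sw Y j r' u' = y' := by rw [hY']; exact sw_sw _ _ _ _
    rw [← h3, ← h4, h1, h2]
  cases σ
  · have hrr : r = Helper4.FS.lp y (j, false) p := by rw [hr]; simp [ed, Helper4.FS.lp]
    have hrr' : r' = Helper4.FS.lp y' (j, false) p := by rw [hr']; simp [ed, Helper4.FS.lp]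
    have hrr2 : r = r' := by rw [hrr, hrr', he0]
    have hYp : (Y j)⁻¹ p = u := by
      have : y j r = p := by rw [hrr]; simp [Helper4.FS.lp]
      rw [Perm.inv_eq_iff_eq]
      simp [hY, sw, this]
    have hYp' : (Y j)⁻¹ p = u' := by
      have : y' j r' = p := by rw [hrr']; simp [Helper4.FS.lp]
      rw [Perm.inv_eq_iff_eq, hY']
      simp [sw, this]
    exact fin hrr2 (hYp.symm.trans hYp')
  · have hrr : r = p := by rw [hr]; simp [ed]
    have hrr' : r' = p := by rw [hr']; simp [ed]
    have he1 : y j p = y' j p := by simpa [Helper4.FS.lp] using he0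
    have hYp : (Y j)⁻¹ (y j p) = u := by
      rw [Perm.inv_eq_iff_eq]
      simp [hY, sw, hrr]
    have hYp' : (Y j)⁻¹ (y' j p) = u' := by
      rw [Perm.inv_eq_iff_eq, hY']
      simp [sw, hrr']
    refine fin (hrr.trans hrr'.symm) ?_
    rw [← hYp, ← hYp', he1]

open Classical in
/-- one event is removed -/
lemma good_step (P P' : ℕ → Stp q n) (W : Finset (Dat n)) (D : Dat n) (hD : D ∈ W)
    (hmax : ∀ d ∈ W, d.T ≤ D.T) (U : ℕ) (hU : ∑ d ∈ W, (d.k + 1 + d.t + d.t') ≤ U) :
    ((Finset.univ : Finset (World q n)).filter (fun y => GoodS P P' y W)).card * (n - U) ≤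
      ((Finset.univ : Finset (World q n)).filter (fun y => GoodS P P' y (W.erase D))).card := by
  classical
  set E := (Finset.univ : Finset (World q n)).filter (fun y => GoodS P P' y W) with hE
  rcases hP : P (D.i + D.k) with c | m
  · -- no event at all
    have : E = ∅ := by
      rw [Finset.eq_empty_iff_forall_notMem]
      intro y hy
      rw [hE, Finset.mem_filter] at hy
      obtain ⟨-, e, he, -⟩ := hy
      obtain ⟨⟨m, hm, -⟩, -⟩ := he D hD
      rw [hP] at hm
      cases hm
    rw [this]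
    simp
  let Bad : World q n → Finset (Fin q × Fin n) := fun y => W.biUnion (fun d => usedD P P' y d)
  let Us : World q n → Finset (Fin n) := fun y =>
    Finset.univ.filter (fun u => (m.1, u) ∉ Bad y)
  have hUcard : ∀ y, n - U ≤ (Us y).card := by
    intro y
    have h1 : (Finset.univ.filter (fun u : Fin n => (m.1, u) ∈ Bad y)).card ≤ (Bad y).card := by
      refine Finset.card_le_card_of_injOn (fun u => (m.1, u)) ?_ ?_
      · intro u hu
        simpa using hu
      · intro u _ v _ h
        simpa using h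
    have h2 : (Bad y).card ≤ U := by
      refine Finset.card_biUnion_le.trans (le_trans ?_ hU)
      exact Finset.sum_le_sum fun d _ => card_usedD P P' y d
    have h3 := Finset.card_filter_add_card_filter_not (s := (Finset.univ : Finset (Fin n)))
      (fun u : Fin n => (m.1, u) ∈ Bad y)
    simp only [Finset.card_univ, Fintype.card_fin] at h3
    have h4 : (Us y).card = (Finset.univ.filter (fun u : Fin n => ¬ (m.1, u) ∈ Bad y)).card := rfl
    omega
  have hmem : ∀ y u, u ∈ Us y ↔ ∀ d ∈ W, ¬ UseE P P' y d (m.1, u) := by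
    intro y u
    simp only [Us, Bad, Finset.mem_filter, Finset.mem_univ, true_and, Finset.mem_biUnion, not_exists,
      not_and, mem_usedD]
  -- the edge of `D`
  have hedge : ∀ y (e : Fin q × Fin n), Ok P P' y D e →
      e = (m.1, (ed y m (pos P y D.i D.p D.k)).2) := by
    intro y e he
    obtain ⟨⟨m', hm', he'⟩, -⟩ := he
    rw [hP] at hm'
    cases hm'
    rw [← he']
    rfl
  have key : (E.sigma Us).card ≤
      ((Finset.univ : Finset (World q n)).filter (fun y => GoodS P P' y (W.erase D))).card := by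
    refine Finset.card_le_card_of_injOn
      (fun yu : (Σ _ : World q n, Fin n) =>
        sw yu.1 m.1 (ed yu.1 m (pos P yu.1 D.i D.p D.k)).2 yu.2) ?_ ?_
    · rintro ⟨y, u⟩ h
      rw [Finset.mem_coe, Finset.mem_sigma] at h
      obtain ⟨hy, hu⟩ := h
      rw [hE, Finset.mem_filter] at hy
      obtain ⟨-, e, he, he2⟩ := hy
      have hu2 := (hmem y u).1 hu
      rw [Finset.mem_coe, Finset.mem_filter]
      refine ⟨Finset.mem_univ _, e, ?_, ?_⟩
      · intro d hd
        have hd' := Finset.mem_of_mem_erase hd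
        have hne := Finset.ne_of_mem_erase hd
        have h1 := he2 d hd' D hD hne (hmax d hd')
        rw [hedge y (e D) (he D hD)] at h1
        exact ok_sw h1 (hu2 d hd') (he d hd')
      · intro d hd d' hd' hdd hT
        have hd1 := Finset.mem_of_mem_erase hd
        have hne := Finset.ne_of_mem_erase hd
        have h1 := he2 d hd1 D hD hne (hmax d hd1)
        rw [hedge y (e D) (he D hD)] at h1
        rw [useE_sw h1 (hu2 d hd1)]
        exact he2 d hd1 d' (Finset.mem_of_mem_erase hd') hdd hT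
    · rintro ⟨y, u⟩ h ⟨y', u'⟩ h' heq
      rw [Finset.mem_coe, Finset.mem_sigma] at h h'
      obtain ⟨hy, hu⟩ := h
      obtain ⟨hy', hu'⟩ := h'
      rw [hE, Finset.mem_filter] at hy hy'
      obtain ⟨-, e, he, -⟩ := hy
      obtain ⟨-, e', he', -⟩ := hy'
      have o1 := he D hD
      have o2 := he' D hD
      rw [hedge y _ o1] at o1
      rw [hedge y' _ o2] at o2
      obtain ⟨h1, h2⟩ := decode hP o1 o2 ((hmem y u).1 hu D hD) ((hmem y' u').1 hu' D hD) heq
      subst h1
      subst h2
      rfl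
  calc E.card * (n - U) ≤ ∑ y ∈ E, (Us y).card := by
        rw [← smul_eq_mul, ← Finset.sum_const]
        exact Finset.sum_le_sum fun y _ => hUcard y
    _ = (E.sigma Us).card := (Finset.card_sigma _ _).symm
    _ ≤ _ := key

open Classical in
/-- **coding**: the worlds with a given set of events -/
theorem good_card (P P' : ℕ → Stp q n) (U : ℕ) : ∀ (w : ℕ) (W : Finset (Dat n)), W.card = w →
    ∑ d ∈ W, (d.k + 1 + d.t + d.t') ≤ U →
    ((Finset.univ : Finset (World q n)).filter (fun y => GoodS P P' y W)).card * (n - U) ^ w ≤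
      Fintype.card (World q n) := by
  classical
  intro w
  induction w with
  | zero =>
    intro W hW _
    rw [pow_zero, mul_one]
    exact Finset.card_le_univ _
  | succ w ih =>
    intro W hW hU
    have hne : W.Nonempty := Finset.card_pos.1 (by omega)
    obtain ⟨D, hD, hmax⟩ := Finset.exists_max_image W (fun d => d.T) hne
    have h1 := good_step P P' W D hD hmax U hU
    have h2 := ih (W.erase D) (by rw [Finset.card_erase_of_mem hD, hW]; rfl)
      ((Finset.sum_le_sum_of_subset (Finset.erase_subset D W)).trans hU)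
    calc _ = (((Finset.univ : Finset (World q n)).filter
          (fun y => GoodS P P' y W)).card * (n - U)) * (n - U) ^ w := by ring
      _ ≤ _ * (n - U) ^ w := Nat.mul_le_mul h1 le_rfl
      _ ≤ _ := h2

open Classical in
/-- **coding**, union over the sets of events in a box -/
theorem code_card (P P' : ℕ → Stp q n) (U w : ℕ) (B : Finset (Dat n))
    (hU : ∀ W ⊆ B, W.card = w → ∑ d ∈ W, (d.k + 1 + d.t + d.t') ≤ U) :
    ((Finset.univ : Finset (World q n)).filter
      (fun y => ∃ W ⊆ B, W.card = w ∧ GoodS P P' y W)).card * (n - U) ^ w ≤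
      B.card.choose w * Fintype.card (World q n) := by
  classical
  have h1 : ((Finset.univ : Finset (World q n)).filter
      (fun y => ∃ W ⊆ B, W.card = w ∧ GoodS P P' y W)) ⊆
      (Finset.powersetCard w B).biUnion (fun W =>
        (Finset.univ : Finset (World q n)).filter (fun y => GoodS P P' y W)) := by
    intro y hy
    rw [Finset.mem_filter] at hy
    obtain ⟨-, W, hW, hc, hg⟩ := hy
    rw [Finset.mem_biUnion]
    exact ⟨W, Finset.mem_powersetCard.2 ⟨hW, hc⟩, Finset.mem_filter.2 ⟨Finset.mem_univ _, hg⟩⟩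
  calc _ ≤ (∑ W ∈ Finset.powersetCard w B, ((Finset.univ : Finset (World q n)).filter
        (fun y => GoodS P P' y W)).card) * (n - U) ^ w :=
        Nat.mul_le_mul ((Finset.card_le_card h1).trans Finset.card_biUnion_le) le_rfl
    _ = ∑ W ∈ Finset.powersetCard w B, ((Finset.univ : Finset (World q n)).filter
        (fun y => GoodS P P' y W)).card * (n - U) ^ w := Finset.sum_mul _ _ _
    _ ≤ ∑ _W ∈ Finset.powersetCard w B, Fintype.card (World q n) := by
        refine Finset.sum_le_sum fun W hW => ?_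
        obtain ⟨h2, h3⟩ := Finset.mem_powersetCard.1 hW
        exact good_card P P' U w W h3 (hU W h2 h3)
    _ = _ := by rw [Finset.sum_const, Finset.card_powersetCard, smul_eq_mul]

end Pool.Agent.Helper34.IC
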