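import Pool.Agent.Helper34.IC.Spi
import Pool.Agent.Helper73.TP.HG2

/-!
# Project FS (MP_75608d_al), interval route: the closing bound of one stage
-/

set_option autoImplicit false

namespace Pool.Agent.Helper34.IC

open Equiv Finset Pool.Agent.Helper4.FS
open Pool.Agent.Helper1.TP (hp nl NoShift crossed Fresh Closed Unc extW extG)
open Pool.Agent.Helper73.TP (nat_card_or nat_card_eq sum_prod_one2 card_world' s_fr
  nat_card_le_world)

variable {q n s : ℕ}

/-- the bound of the counting theorem -/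
noncomputable def codeB (n N w : ℕ) : ℝ :=
  ((n * (2 * N + 2) ^ 5).choose w : ℝ) / ((n : ℝ) - w * (6 * N + 4)) ^ w

open Classical in
/-- the counting theorem as a bound for the number of worlds -/
theorem icl_real (a b : ℕ → Perm (Fin n)) (g : ℕ → Option (Lt q)) {E N k₀ w : ℕ} (hE : 4 ≤ E)
    (hk : 1 ≤ k₀) (hw : 2 * (4 * E + 1) * w ≤ k₀) (hn : w * (6 * N + 4) < n) :
    (Nat.card {y : World q n // ∃ x : Fin s → Fin n, Function.Injective x ∧
      Many a b g y E N k₀ x} : ℝ) ≤ codeB n N w * (n.factorial : ℝ) ^ q := by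
  classical
  have h := icl_card (s := s) (N := N) a b g hE hk hw
  rw [card_world'] at h
  have h1 : (Nat.card {y : World q n // ∃ x : Fin s → Fin n, Function.Injective x ∧
      Many a b g y E N k₀ x}) = ((univ : Finset (World q n)).filter fun y =>
      ∃ x : Fin s → Fin n, Function.Injective x ∧ Many a b g y E N k₀ x).card := by
    rw [Nat.card_eq_fintype_card, Fintype.card_subtype]
  rw [h1]
  have h2 : (0 : ℝ) < (n : ℝ) - w * (6 * N + 4) := by
    have : ((w * (6 * N + 4) : ℕ) : ℝ) < n := by exact_mod_cast hn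
    push_cast at this
    linarith
  unfold codeB
  rw [div_mul_eq_mul_div, le_div_iff₀ (pow_pos h2 w)]
  have h3 : ((((univ : Finset (World q n)).filter fun y =>
      ∃ x : Fin s → Fin n, Function.Injective x ∧ Many a b g y E N k₀ x).card *
        (n - w * (6 * N + 4)) ^ w : ℕ) : ℝ) ≤
      (((n * (2 * N + 2) ^ 5).choose w * n.factorial ^ q : ℕ) : ℝ) := by exact_mod_cast h
  push_cast [Nat.cast_sub hn.le] at h3
  exact h3

open Classical in
/-- **the closing bound**: one start tuple, one pattern -/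
theorem hgi {N b d c B P E w N0 k₀ : ℕ} (μ : Perm (Fin n) → ℝ) {ρ : ℝ}
    (g : Fin N → Option (Lt q)) (x : Fin s → Fin n) (hx : Function.Injective x)
    (hμ0 : ∀ A, 0 ≤ μ A) (hμ1 : ∑ A, μ A = 1) (hρ0 : 0 ≤ ρ)
    (hρ : ∀ c c' : Fin b ↪ Fin n, ∑ A, (if ∀ j, A (c j) = c' j then μ A else 0) ≤ ρ)
    (hs : 1 ≤ s) (hd : 1 ≤ d) (hE : 4 ≤ E) (hk : 1 ≤ k₀) (h1 : 10 * k₀ ≤ s)
    (h2 : 4 * k₀ ≤ d * N) (h4 : 5 * (b + d) ≤ 3 * s) (hw : 2 * (4 * E + 1) * w ≤ k₀)
    (hn : w * (6 * N + 4) < n) (hP : NoShift (extG g) N P) (hN0 : N0 ≤ nl (extG g) N)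
    (h3 : 80 * (4 * E * (s * (N - N0) + 2 * (c * N + s * B)) + s * (12 * P)) ≤ s * N) :
    ∑ A : Fin N → Perm (Fin n), ∑ B' : Fin N → Perm (Fin n),
      (∏ j, μ (A j)) * (∏ j, μ (B' j)) *
        (Nat.card {y : World q n // Closed y (extW A) (extW B') (extG g) N x ∧
          Unc y (extW A) (extG g) N c B x ∧ Unc y (extW B') (extG g) N c B x} : ℝ) ≤
    (2 ^ N * ((small s d).card * ρ) ^ (N / 2) + codeB n N w) * (n.factorial : ℝ) ^ q := by
  classical
  have hμA : ∀ A : Fin N → Perm (Fin n), 0 ≤ ∏ j, μ (A j) := fun A =>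
    prod_nonneg fun j _ => hμ0 _
  -- split of the event
  have hsplit : ∀ A B' : Fin N → Perm (Fin n),
      (Nat.card {y : World q n // Closed y (extW A) (extW B') (extG g) N x ∧
          Unc y (extW A) (extG g) N c B x ∧ Unc y (extW B') (extG g) N c B x} : ℝ) ≤
      codeB n N w * (n.factorial : ℝ) ^ q +
      ∑ y : World q n, (if Unc y (extW A) (extG g) N c B x ∧
        ¬ ManyB (extW A) (extW B') (extG g) y E N k₀ x then (1 : ℝ) else 0) := by
    intro A B'
    refine (nat_card_or _ (fun y => ∃ x : Fin s → Fin n, Function.Injective x ∧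
      Many (extW A) (extW B') (extG g) y E N k₀ x)
      (fun y => Unc y (extW A) (extG g) N c B x ∧
        ¬ ManyB (extW A) (extW B') (extG g) y E N k₀ x) ?_).trans ?_
    · rintro y ⟨hcl, hU, -⟩
      by_cases hM : ManyB (extW A) (extW B') (extG g) y E N k₀ x
      · exact Or.inl ⟨x, hx, hcl, hM⟩
      · exact Or.inr ⟨hU, hM⟩
    · exact add_le_add (icl_real (extW A) (extW B') (extG g) hE hk hw hn)
        (le_of_eq (nat_card_eq _))
  -- the second part
  have hsec : ∀ (A : Fin N → Perm (Fin n)) (y : World q n),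
      ∑ B' : Fin N → Perm (Fin n), (∏ j, μ (B' j)) *
        (if Unc y (extW A) (extG g) N c B x ∧
        ¬ ManyB (extW A) (extW B') (extG g) y E N k₀ x then (1 : ℝ) else 0) ≤
      2 ^ N * ((small s d).card * ρ) ^ (N / 2) := by
    intro A y
    by_cases hU : Unc y (extW A) (extG g) N c B x
    · have hF := s_fr q n N s c B (extG g) (extW A) x y hx hU
      have hbad := bad_card (extW A) (extG g) y E N _ P x hF hP
      have hnl : nl (extG g) N ≤ N := by
        unfold Pool.Agent.Helper1.TP.nl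
        exact (card_filter_le _ _).trans (by rw [card_range])
      have hK : 80 * (((univ : Finset (Fin s)) ×ˢ range N).filter fun e =>
          ¬ Gd (extW A) (extG g) y E N x e.1 e.2).card ≤ s * N := by
        refine le_trans (Nat.mul_le_mul le_rfl (hbad.trans ?_)) h3
        refine Nat.add_le_add (Nat.mul_le_mul le_rfl (Nat.add_le_add (Nat.mul_le_mul le_rfl ?_)
          (Nat.mul_le_mul le_rfl (Nat.add_le_add (Nat.mul_le_mul le_rfl hnl) le_rfl)))) le_rfl
        omega
      have h5 := spi μ hμ0 hμ1 hρ0 hρ (extW A) (extG g) y x hx hs hd h1 h2 h4 hK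
      refine le_trans (le_of_eq (sum_congr rfl fun B' _ => ?_)) h5
      have h6 : Pool.Agent.Helper7.FS.ext 1 B' = extW B' := rfl
      rw [h6]
      by_cases hM : ManyB (extW A) (extW B') (extG g) y E N k₀ x
      · rw [if_neg (fun h => h.2 hM), if_neg (not_not.2 hM), mul_zero]
      · rw [if_pos ⟨hU, hM⟩, if_pos hM, mul_one]
    · refine le_trans (le_of_eq (sum_eq_zero fun B' _ => ?_)) (by positivity)
      rw [if_neg (fun h => hU h.1), mul_zero]
  calc _ ≤ ∑ A : Fin N → Perm (Fin n), ∑ B' : Fin N → Perm (Fin n),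
        ((∏ j, μ (A j)) * (∏ j, μ (B' j)) * (codeB n N w * (n.factorial : ℝ) ^ q) +
        ∑ y : World q n, (∏ j, μ (A j)) * ((∏ j, μ (B' j)) *
          (if Unc y (extW A) (extG g) N c B x ∧
        ¬ ManyB (extW A) (extW B') (extG g) y E N k₀ x then (1 : ℝ) else 0))) := by
        refine sum_le_sum fun A _ => sum_le_sum fun B' _ => ?_
        refine (mul_le_mul_of_nonneg_left (hsplit A B') (mul_nonneg (hμA A) (hμA B'))).trans
          (le_of_eq ?_)
        rw [mul_add, mul_sum]
        congr 1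
        refine sum_congr rfl fun y _ => ?_
        ring
    _ = (∑ A : Fin N → Perm (Fin n), ∑ B' : Fin N → Perm (Fin n),
          (∏ j, μ (A j)) * (∏ j, μ (B' j))) * (codeB n N w * (n.factorial : ℝ) ^ q) +
        ∑ A : Fin N → Perm (Fin n), ∑ y : World q n, (∏ j, μ (A j)) *
          ∑ B' : Fin N → Perm (Fin n), (∏ j, μ (B' j)) *
          (if Unc y (extW A) (extG g) N c B x ∧
        ¬ ManyB (extW A) (extW B') (extG g) y E N k₀ x then (1 : ℝ) else 0) := by
        simp only [sum_add_distrib, sum_mul]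
        congr 1
        refine sum_congr rfl fun A _ => ?_
        rw [sum_comm]
        refine sum_congr rfl fun y _ => ?_
        rw [mul_sum]
    _ ≤ 1 * (codeB n N w * (n.factorial : ℝ) ^ q) +
        ∑ A : Fin N → Perm (Fin n), ∑ y : World q n, (∏ j, μ (A j)) *
          (2 ^ N * ((small s d).card * ρ) ^ (N / 2)) := by
        rw [sum_prod_one2 μ hμ1]
        refine add_le_add le_rfl (sum_le_sum fun A _ => sum_le_sum fun y _ => ?_)
        exact mul_le_mul_of_nonneg_left (hsec A y) (hμA A)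
    _ = _ := by
        have h5 : ∑ A : Fin N → Perm (Fin n), ∏ j, μ (A j) = 1 := by
          rw [← Fintype.piFinset_univ, ← prod_univ_sum]
          simp [hμ1]
        have h6 : ∑ A : Fin N → Perm (Fin n), ∑ _y : World q n, (∏ j, μ (A j)) *
          (2 ^ N * ((small s d).card * ρ) ^ (N / 2)) =
          (∑ A : Fin N → Perm (Fin n), ∏ j, μ (A j)) *
            ((n.factorial : ℝ) ^ q * (2 ^ N * ((small s d).card * ρ) ^ (N / 2))) := by
          rw [sum_mul]
          refine sum_congr rfl fun A _ => ?_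
          rw [sum_const, card_univ, card_world', nsmul_eq_mul]
          push_cast
          ring
        rw [h6, h5]
        ring

end Pool.Agent.Helper34.IC
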