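import Pool.Agent.Helper34.IC.Events

/-!
# Project FS (MP_75608d_al), interval route: the counting theorem

For fixed words `a`, `b` and a fixed pattern `g`: few worlds have a start tuple from which the two
systems end at the same points and have many good separated pairs (token, slot) in one slot or many good
separations.
-/

set_option autoImplicit false

namespace Pool.Agent.Helper34.IC

open Equiv Finset Pool.Agent.Helper4.FS

variable {q n s : ℕ}

lemma GoodS.mono {P P' : ℕ → Stp q n} {y : World q n} {W W' : Finset (Dat n)}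
    (h : GoodS P P' y W) (hs : W' ⊆ W) : GoodS P P' y W' := by
  obtain ⟨e, h1, h2⟩ := h
  exact ⟨e, fun d hd => h1 d (hs hd), fun d hd d' hd' => h2 d (hs hd) d' (hs hd')⟩

open Classical in
/-- the event of the counting theorem -/
def Many (a b : ℕ → Perm (Fin n)) (g : ℕ → Option (Lt q)) (y : World q n) (E N k₀ : ℕ)
    (x : Fin s → Fin n) : Prop :=
  (∀ l, ps a g y x l (2 * N) = ps b g y x l (2 * N)) ∧
  ((∃ v < N, k₀ ≤ ((univ : Finset (Fin s)).filter fun l =>
      Apart a b g y x l v ∧ Gd a g y E N x l v).card) ∨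
    k₀ ≤ (((univ : Finset (Fin s)) ×ˢ range N).filter fun e =>
      Start a b g y x e.1 e.2 ∧ Gd a g y E N x e.1 e.2).card)

open Classical in
/-- **the counting theorem** -/
theorem icl_card (a b : ℕ → Perm (Fin n)) (g : ℕ → Option (Lt q)) {E N k₀ w : ℕ} (hE : 4 ≤ E)
    (hk : 1 ≤ k₀) (hw : 2 * (4 * E + 1) * w ≤ k₀) :
    ((univ : Finset (World q n)).filter fun y =>
      ∃ x : Fin s → Fin n, Function.Injective x ∧ Many a b g y E N k₀ x).card *
        (n - w * (6 * N + 4)) ^ w ≤
      (n * (2 * N + 2) ^ 5).choose w * Fintype.card (World q n) := by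
  classical
  have h1 : ((univ : Finset (World q n)).filter fun y =>
      ∃ x : Fin s → Fin n, Function.Injective x ∧ Many a b g y E N k₀ x) ⊆
      (univ : Finset (World q n)).filter (fun y => ∃ W ⊆ Box n N, W.card = w ∧
        GoodS (prog a g) (prog b g) y W) := by
    intro y hy
    rw [mem_filter] at hy ⊢
    obtain ⟨-, x, hx, hcl, h⟩ := hy
    refine ⟨mem_univ _, ?_⟩
    obtain ⟨W, hW, hg, hc⟩ := events_good a b g y x hE hk hx hcl h
    have h2 : w ≤ W.card := by
      have h3 := hw.trans hc
      exact Nat.le_of_mul_le_mul_left h3 (by omega)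
    obtain ⟨W', hW', hc'⟩ := exists_subset_card_eq h2
    exact ⟨W', hW'.trans hW, hc', hg.mono hW'⟩
  have h2 := code_card (prog a g) (prog b g) (w * (6 * N + 4)) w (Box n N)
    (fun W hW hc => box_sum hW hc)
  calc _ ≤ _ := Nat.mul_le_mul (card_le_card h1) le_rfl
    _ ≤ _ := h2
    _ ≤ _ := Nat.mul_le_mul (Nat.choose_le_choose w (card_Box n N)) le_rfl

end Pool.Agent.Helper34.IC
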