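import Mathlib

/-!
# Project FS (MP_75608d_al), interval route: windows

Two covering lemmas for windows of slots: the maximal inequality for a set of bad slots, and the number
of slots which lie in windows with a large increasing matching of equal letters without fixed points.
-/

set_option autoImplicit false

namespace Pool.Agent.Helper34.IC

open Finset

/-- in every window which contains the slot `v` the bad slots have density less than `1 / E` -/
def NiceAt (B : Finset ℕ) (E N v : ℕ) : Prop :=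
  ∀ c d, c ≤ v → v < d → d ≤ N → (B ∩ Ico c d).card * E < d - c

lemma right_le (B : Finset ℕ) (K N : ℕ) (R : Finset ℕ)
    (hR : ∀ v ∈ R, v < N ∧ ∃ d, v < d ∧ d ≤ N ∧ d - v ≤ (B ∩ Ico v d).card * K) :
    ∀ m v₀, N - v₀ = m → (R ∩ Ico v₀ N).card ≤ (B ∩ Ico v₀ N).card * K := by
  intro m
  induction m using Nat.strong_induction_on with
  | _ m ih =>
    intro v₀ hv
    rcases Nat.lt_or_ge v₀ N with hlt | hge
    · by_cases h : v₀ ∈ R
      · obtain ⟨-, d, h1, h2, h3⟩ := hR v₀ h
        have h4 := ih (N - d) (by omega) d rfl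
        have h5 : R ∩ Ico v₀ N ⊆ Ico v₀ d ∪ (R ∩ Ico d N) := by
          intro x hx
          simp only [mem_inter, mem_Ico, mem_union] at hx ⊢
          grind
        have h6 : (B ∩ Ico v₀ d).card + (B ∩ Ico d N).card ≤ (B ∩ Ico v₀ N).card := by
          rw [← card_union_of_disjoint]
          · apply card_le_card
            intro x hx
            simp only [mem_inter, mem_Ico, mem_union] at hx ⊢
            grind
          · rw [disjoint_left]
            intro x hx hx'
            simp only [mem_inter, mem_Ico] at hx hx'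
            grind
        calc (R ∩ Ico v₀ N).card ≤ (Ico v₀ d ∪ (R ∩ Ico d N)).card := card_le_card h5
          _ ≤ (Ico v₀ d).card + (R ∩ Ico d N).card := card_union_le _ _
          _ ≤ (B ∩ Ico v₀ d).card * K + (B ∩ Ico d N).card * K := by
              rw [Nat.card_Ico]; omega
          _ = ((B ∩ Ico v₀ d).card + (B ∩ Ico d N).card) * K := (Nat.add_mul _ _ _).symm
          _ ≤ _ := Nat.mul_le_mul h6 le_rfl
      · have h4 := ih (N - (v₀ + 1)) (by omega) (v₀ + 1) rfl
        have h5 : R ∩ Ico v₀ N ⊆ R ∩ Ico (v₀ + 1) N := by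
          intro x hx
          simp only [mem_inter, mem_Ico] at hx ⊢
          have : x ≠ v₀ := fun h' => h (h' ▸ hx.1)
          grind
        have h6 : B ∩ Ico (v₀ + 1) N ⊆ B ∩ Ico v₀ N := by
          intro x hx
          simp only [mem_inter, mem_Ico] at hx ⊢
          grind
        exact (card_le_card h5).trans (h4.trans (Nat.mul_le_mul (card_le_card h6) le_rfl))
    · rw [Ico_eq_empty (by omega)]
      simp

lemma left_le (B : Finset ℕ) (K : ℕ) (L : Finset ℕ)
    (hL : ∀ v ∈ L, ∃ c, c ≤ v ∧ v + 1 - c ≤ (B ∩ Ico c (v + 1)).card * K) :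
    ∀ m, (L ∩ range m).card ≤ (B ∩ range m).card * K := by
  intro m
  induction m using Nat.strong_induction_on with
  | _ m ih =>
    rcases m with _ | m
    · simp
    · by_cases h : m ∈ L
      · obtain ⟨c, h1, h2⟩ := hL m h
        have h4 := ih c (by omega)
        have h5 : L ∩ range (m + 1) ⊆ Ico c (m + 1) ∪ (L ∩ range c) := by
          intro x hx
          simp only [mem_inter, mem_Ico, mem_union, mem_range] at hx ⊢
          grind
        have h6 : (B ∩ Ico c (m + 1)).card + (B ∩ range c).card ≤ (B ∩ range (m + 1)).card := by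
          rw [← card_union_of_disjoint]
          · apply card_le_card
            intro x hx
            simp only [mem_inter, mem_Ico, mem_union, mem_range] at hx ⊢
            grind
          · rw [disjoint_left]
            intro x hx hx'
            simp only [mem_inter, mem_Ico, mem_range] at hx hx'
            grind
        calc (L ∩ range (m + 1)).card ≤ (Ico c (m + 1) ∪ (L ∩ range c)).card := card_le_card h5
          _ ≤ (Ico c (m + 1)).card + (L ∩ range c).card := card_union_le _ _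
          _ ≤ (B ∩ Ico c (m + 1)).card * K + (B ∩ range c).card * K := by
              rw [Nat.card_Ico]; omega
          _ = ((B ∩ Ico c (m + 1)).card + (B ∩ range c).card) * K := (Nat.add_mul _ _ _).symm
          _ ≤ _ := Nat.mul_le_mul h6 le_rfl
      · have h4 := ih m (by omega)
        have h5 : L ∩ range (m + 1) ⊆ L ∩ range m := by
          intro x hx
          simp only [mem_inter, mem_range] at hx ⊢
          have : x ≠ m := fun h' => h (h' ▸ hx.1)
          grind
        have h6 : B ∩ range m ⊆ B ∩ range (m + 1) := by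
          intro x hx
          simp only [mem_inter, mem_range] at hx ⊢
          grind
        exact (card_le_card h5).trans (h4.trans (Nat.mul_le_mul (card_le_card h6) le_rfl))

open Classical in
/-- **maximal inequality** -/
theorem nice_card (B : Finset ℕ) (E N : ℕ) :
    ((range N).filter fun v => ¬ NiceAt B E N v).card ≤ 4 * E * B.card := by
  classical
  set R := (range N).filter fun v => ∃ d, v < d ∧ d ≤ N ∧ d - v ≤ (B ∩ Ico v d).card * (2 * E)
  set L := (range N).filter fun v => ∃ c, c ≤ v ∧ v + 1 - c ≤ (B ∩ Ico c (v + 1)).card * (2 * E)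
  have h1 : (R ∩ Ico 0 N).card ≤ (B ∩ Ico 0 N).card * (2 * E) := by
    refine right_le B (2 * E) N R ?_ (N - 0) 0 rfl
    intro v hv
    obtain ⟨h, h'⟩ := mem_filter.1 hv
    exact ⟨mem_range.1 h, h'⟩
  have h2 : (L ∩ range N).card ≤ (B ∩ range N).card * (2 * E) := by
    refine left_le B (2 * E) L ?_ N
    intro v hv
    exact (mem_filter.1 hv).2
  have h3 : ((range N).filter fun v => ¬ NiceAt B E N v) ⊆ (R ∩ Ico 0 N) ∪ (L ∩ range N) := by
    intro v hv
    obtain ⟨hvN, hv⟩ := mem_filter.1 hv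
    have hvN' := mem_range.1 hvN
    by_contra hcon
    simp only [mem_union, mem_inter, mem_Ico, not_or, not_and, mem_range] at hcon
    obtain ⟨hc1, hc2⟩ := hcon
    have hR : v ∉ R := fun h => absurd hvN' (by have := hc1 h; grind)
    have hL : v ∉ L := fun h => hc2 h hvN'
    apply hv
    intro c d hcv hvd hdN
    have e1 : ¬ (d - v ≤ (B ∩ Ico v d).card * (2 * E)) := fun h =>
      hR (mem_filter.2 ⟨hvN, d, hvd, hdN, h⟩)
    have e2 : ¬ (v + 1 - c ≤ (B ∩ Ico c (v + 1)).card * (2 * E)) := fun h =>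
      hL (mem_filter.2 ⟨hvN, c, hcv, h⟩)
    have e3 : (B ∩ Ico c d).card ≤ (B ∩ Ico v d).card + (B ∩ Ico c (v + 1)).card := by
      refine (card_le_card ?_).trans (card_union_le _ _)
      intro x hx
      simp only [mem_inter, mem_Ico, mem_union] at hx ⊢
      grind
    have e4 := Nat.mul_le_mul e3 (le_refl (2 * E))
    rw [Nat.add_mul] at e4
    have e5 : (B ∩ Ico c d).card * (2 * E) = (B ∩ Ico c d).card * E + (B ∩ Ico c d).card * E := by
      ring
    omega
  have h4 : (B ∩ Ico 0 N).card ≤ B.card := card_le_card inter_subset_left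
  have h5 : (B ∩ range N).card ≤ B.card := card_le_card inter_subset_left
  calc _ ≤ (R ∩ Ico 0 N).card + (L ∩ range N).card := (card_le_card h3).trans (card_union_le _ _)
    _ ≤ B.card * (2 * E) + B.card * (2 * E) :=
        Nat.add_le_add (h1.trans (Nat.mul_le_mul h4 le_rfl)) (h2.trans (Nat.mul_le_mul h5 le_rfl))
    _ = 4 * E * B.card := by ring

/-! ### windows with shifted matchings -/

variable {Q : Type*}

/-- the window `[c, d)` has an increasing matching of equal letters without fixed points which uses at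
least a quarter of its slots -/
def ShW (g : ℕ → Option Q) (c d : ℕ) : Prop :=
  ∃ (I : Finset ℕ) (φ : ℕ → ℕ), I ⊆ Ico c d ∧ StrictMonoOn φ I ∧
    (∀ v ∈ I, c ≤ φ v ∧ φ v < d ∧ φ v ≠ v ∧ g v ≠ none ∧ g (φ v) = g v) ∧ d - c ≤ 4 * I.card

lemma shift_cover (g : ℕ → Option Q) : ∀ (k : ℕ) (F : Finset (ℕ × ℕ)), F.card = k →
    (∀ J ∈ F, J.1 < J.2 ∧ ShW g J.1 J.2) →
    ∃ (I : Finset ℕ) (φ : ℕ → ℕ), StrictMonoOn φ I ∧
      (∀ v ∈ I, (∃ J ∈ F, J.1 ≤ v ∧ v < J.2 ∧ J.1 ≤ φ v ∧ φ v < J.2) ∧ φ v ≠ v ∧ g v ≠ none ∧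
        g (φ v) = g v) ∧
      (F.biUnion fun J => Ico J.1 J.2).card ≤ 12 * I.card := by
  classical
  intro k
  induction k using Nat.strong_induction_on with
  | _ k ih =>
    intro F hk hF
    rcases F.eq_empty_or_nonempty with rfl | hne
    · exact ⟨∅, id, by intro v hv; simp at hv, by simp, by simp⟩
    obtain ⟨J₁, hJ₁, hmax⟩ := exists_max_image F (fun J => J.2 - J.1) hne
    obtain ⟨hlt, I₁, φ₁, hI₁, hm₁, hp₁, hc₁⟩ := hF J₁ hJ₁
    obtain ⟨F', hF'⟩ : ∃ F', F' = F.filter fun J => J.2 ≤ J₁.1 ∨ J₁.2 ≤ J.1 := ⟨_, rfl⟩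
    have hsub : F' ⊆ F := by rw [hF']; exact filter_subset _ _
    have hss : F' ⊂ F := by
      refine ⟨hsub, fun h => ?_⟩
      have := h hJ₁
      rw [hF', mem_filter] at this
      omega
    obtain ⟨I₂, φ₂, hm₂, hp₂, hc₂⟩ := ih F'.card (by rw [← hk]; exact card_lt_card hss) F' rfl
      (fun J hJ => hF J (hsub hJ))
    -- the points of `I₂` are outside `J₁`
    have hout : ∀ v ∈ I₂, ∃ J ∈ F', J.1 ≤ v ∧ v < J.2 ∧ J.1 ≤ φ₂ v ∧ φ₂ v < J.2 ∧
        (J.2 ≤ J₁.1 ∨ J₁.2 ≤ J.1) := by
      intro v hv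
      obtain ⟨⟨J, hJ, h1, h2, h3, h4⟩, -⟩ := hp₂ v hv
      refine ⟨J, hJ, h1, h2, h3, h4, ?_⟩
      rw [hF', mem_filter] at hJ
      exact hJ.2
    have hnot : ∀ v ∈ I₂, ¬ (J₁.1 ≤ v ∧ v < J₁.2) := by
      intro v hv
      obtain ⟨J, -, h1, h2, h3, h4, h5⟩ := hout v hv
      omega
    have hin : ∀ v ∈ I₁, J₁.1 ≤ v ∧ v < J₁.2 := by
      intro v hv
      exact mem_Ico.1 (hI₁ hv)
    obtain ⟨φ, hφ⟩ : ∃ φ : ℕ → ℕ, φ = fun v => if J₁.1 ≤ v ∧ v < J₁.2 then φ₁ v else φ₂ v :=
      ⟨_, rfl⟩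
    have hφ1 : ∀ v ∈ I₁, φ v = φ₁ v := by
      intro v hv
      rw [hφ]
      exact if_pos (hin v hv)
    have hφ2 : ∀ v ∈ I₂, φ v = φ₂ v := by
      intro v hv
      rw [hφ]
      exact if_neg (hnot v hv)
    refine ⟨I₁ ∪ I₂, φ, ?_, ?_, ?_⟩
    · intro v hv w hw hvw
      rw [mem_coe, mem_union] at hv hw
      rcases hv with hv | hv <;> rcases hw with hw | hw
      · rw [hφ1 v hv, hφ1 w hw]; exact hm₁ hv hw hvw
      · rw [hφ1 v hv, hφ2 w hw]
        have h1 := hin v hv
        obtain ⟨-, h2, -⟩ := hp₁ v hv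
        obtain ⟨J, -, h3, h4, h5, h6, h7⟩ := hout w hw
        omega
      · rw [hφ2 v hv, hφ1 w hw]
        have h1 := hin w hw
        obtain ⟨h2, -⟩ := hp₁ w hw
        obtain ⟨J, -, h3, h4, h5, h6, h7⟩ := hout v hv
        omega
      · rw [hφ2 v hv, hφ2 w hw]; exact hm₂ hv hw hvw
    · intro v hv
      rw [mem_union] at hv
      rcases hv with hv | hv
      · rw [hφ1 v hv]
        obtain ⟨h1, h2, h3, h4, h5⟩ := hp₁ v hv
        obtain ⟨h6, h7⟩ := hin v hv
        exact ⟨⟨J₁, hJ₁, h6, h7, h1, h2⟩, h3, h4, h5⟩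
      · rw [hφ2 v hv]
        obtain ⟨⟨J, hJ, h1⟩, h2⟩ := hp₂ v hv
        exact ⟨⟨J, hsub hJ, h1⟩, h2⟩
    · have hdis : Disjoint I₁ I₂ := by
        rw [disjoint_left]
        intro v hv hv'
        exact hnot v hv' (hin v hv)
      rw [card_union_of_disjoint hdis]
      have h1 : (F.biUnion fun J => Ico J.1 J.2) ⊆
          (F'.biUnion fun J => Ico J.1 J.2) ∪
            Ico (J₁.1 - (J₁.2 - J₁.1)) (J₁.2 + (J₁.2 - J₁.1)) := by
        intro v hv
        rw [mem_biUnion] at hv
        obtain ⟨J, hJ, hvJ⟩ := hv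
        rw [mem_Ico] at hvJ
        rw [mem_union, mem_biUnion]
        by_cases h : J.2 ≤ J₁.1 ∨ J₁.2 ≤ J.1
        · left
          refine ⟨J, ?_, mem_Ico.2 hvJ⟩
          rw [hF', mem_filter]
          exact ⟨hJ, h⟩
        · right
          have := hmax J hJ
          rw [mem_Ico]
          omega
      have h2 : (Ico (J₁.1 - (J₁.2 - J₁.1)) (J₁.2 + (J₁.2 - J₁.1))).card ≤ 3 * (J₁.2 - J₁.1) := by
        rw [Nat.card_Ico]
        omega
      have h3 := (card_le_card h1).trans (card_union_le _ _)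
      omega

open Classical in
/-- the slots in windows with a large shifted matching -/
theorem shift_card (g : ℕ → Option Q) (N P : ℕ)
    (hP : ∀ (I : Finset ℕ) (φ : ℕ → ℕ), I ⊆ range N → StrictMonoOn φ I →
      (∀ v ∈ I, φ v < N ∧ φ v ≠ v ∧ g v ≠ none ∧ g (φ v) = g v) → I.card ≤ P) :
    ((range N).filter fun v => ∃ c d, c ≤ v ∧ v < d ∧ d ≤ N ∧ ShW g c d).card ≤ 12 * P := by
  classical
  obtain ⟨F, hF⟩ : ∃ F, F = ((range N) ×ˢ (range (N + 1))).filter fun J : ℕ × ℕ =>
    J.1 < J.2 ∧ ShW g J.1 J.2 := ⟨_, rfl⟩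
  obtain ⟨I, φ, hm, hp, hc⟩ := shift_cover g F.card F rfl (fun J hJ => by
    rw [hF, mem_filter] at hJ
    exact hJ.2)
  have h1 : ((range N).filter fun v => ∃ c d, c ≤ v ∧ v < d ∧ d ≤ N ∧ ShW g c d) ⊆
      F.biUnion fun J => Ico J.1 J.2 := by
    intro v hv
    obtain ⟨hvN, c, d, h1, h2, h3, h4⟩ := mem_filter.1 hv
    rw [mem_biUnion]
    refine ⟨(c, d), ?_, mem_Ico.2 ⟨h1, h2⟩⟩
    rw [hF, mem_filter, mem_product, mem_range, mem_range]
    have := mem_range.1 hvN
    refine ⟨⟨?_, ?_⟩, ?_, h4⟩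
    · show c < N
      omega
    · show d < N + 1
      omega
    · show c < d
      omega
  have h2 : I.card ≤ P := by
    refine hP I φ ?_ hm ?_
    · intro v hv
      obtain ⟨⟨J, hJ, h3, h4, h5, h6⟩, -⟩ := hp v hv
      rw [hF, mem_filter, mem_product, mem_range, mem_range] at hJ
      rw [mem_range]
      omega
    · intro v hv
      obtain ⟨⟨J, hJ, h3, h4, h5, h6⟩, h7⟩ := hp v hv
      rw [hF, mem_filter, mem_product, mem_range, mem_range] at hJ
      exact ⟨by omega, h7⟩
  calc _ ≤ (F.biUnion fun J => Ico J.1 J.2).card := card_le_card h1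
    _ ≤ 12 * I.card := hc
    _ ≤ 12 * P := Nat.mul_le_mul le_rfl h2

end Pool.Agent.Helper34.IC
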