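import Pool.Agent.Helper4.FS.Det
import Pool.Agent.Helper34.IC.Code
import Pool.Agent.Helper34.IC.Win

/-!
# Project FS (MP_75608d_al), interval route: jump edges of one event

Two paths of one token leave a common place, are at different places before every slot of a window and
meet at its end. Every private edge of the first path in the window is either a jump edge (it can be
decoded) or it is crossed by the second path in the same direction; the first crossings form an
increasing matching of equal letters without fixed points.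
-/

set_option autoImplicit false

namespace Pool.Agent.Helper34.IC

open Equiv Finset Pool.Agent.Helper4.FS

variable {q n : ℕ}

lemma prog_inr {a : ℕ → Perm (Fin n)} {g : ℕ → Option (Lt q)} {k : ℕ} {m : Lt q}
    (h : prog a g k = Sum.inr m) : ∃ c, k = 2 * c + 1 ∧ g c = some m := by
  rcases Nat.even_or_odd k with ⟨c, hc⟩ | ⟨c, hc⟩
  · rw [show k = 2 * c by omega, prog_even] at h
    cases h
  · subst hc
    rcases hg : g c with _ | m'
    · rw [prog_odd_none hg] at h
      cases h
    · rw [prog_odd_some hg] at h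
      cases h
      exact ⟨c, rfl, hg⟩

/-- the position after a letter step -/
lemma pos_letter {a : ℕ → Perm (Fin n)} {g : ℕ → Option (Lt q)} {i c : ℕ} {m : Lt q}
    (h : g (i + c) = some m) (y : World q n) (x : Fin n) :
    pos (prog a g) y (2 * i) x (2 * c + 2) =
      Helper4.FS.lp y m (pos (prog a g) y (2 * i) x (2 * c + 1)) := by
  rw [show 2 * c + 2 = (2 * c + 1) + 1 by ring, pos_succ,
    show 2 * i + (2 * c + 1) = 2 * (i + c) + 1 by ring, prog_odd_some h]
  rfl

/-- the edge crossed in round `i + c` by the path which is at `p` before the word of round `i` -/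
def edc (P : ℕ → Stp q n) (y : World q n) (i : ℕ) (p : Fin n) (c : ℕ) (m : Lt q) : Fin q × Fin n :=
  ed y m (pos P y (2 * i) p (2 * c + 1))

/-- the edge crossed in round `i + c` is a jump edge of the window of length `T` -/
def Jmp (a b : ℕ → Perm (Fin n)) (g : ℕ → Option (Lt q)) (y : World q n) (i T : ℕ) (p : Fin n)
    (c : ℕ) : Prop :=
  ∃ m t t', g (i + c) = some m ∧ 2 * c + 2 + t ≤ 2 * T + 1 ∧ t' ≤ 2 * T + 1 ∧
    Ok (prog a g) (prog b g) y ⟨2 * i, p, T, 2 * c + 1, t, t'⟩ (edc (prog a g) y i p c m)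

/-- the edge crossed in round `i + c` is crossed only once in the window of length `T` -/
def Prv (a : ℕ → Perm (Fin n)) (g : ℕ → Option (Lt q)) (y : World q n) (i T : ℕ) (p : Fin n)
    (c : ℕ) : Prop :=
  ∃ m, g (i + c) = some m ∧
    ∀ c' < T, ∀ m', g (i + c') = some m' →
      edc (prog a g) y i p c' m' = edc (prog a g) y i p c m → c' = c

lemma same_place {y : World q n} {m : Lt q} {p p' : Fin n} (h : ed y m p = ed y m p') : p = p' := by
  obtain ⟨j, σ⟩ := m
  cases σ
  · simpa [ed] using h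
  · simpa [ed] using h

lemma opp_place {y : World q n} {m m' : Lt q} {p p' : Fin n} (h : ed y m' p' = ed y m p)
    (hm : m' ≠ m) : p' = Helper4.FS.lp y m p := by
  obtain ⟨j, σ⟩ := m
  obtain ⟨j', σ'⟩ := m'
  have hj : j' = j := by
    have := congrArg Prod.fst h
    simpa [ed] using this
  subst hj
  have hσ : σ' ≠ σ := fun h' => hm (by rw [h'])
  cases σ <;> cases σ'
  · exact absurd rfl hσ
  · have h2 := congrArg Prod.snd h
    simp only [ed, Helper4.FS.lp, if_true, Bool.false_eq_true, if_false] at h2 ⊢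
    exact h2
  · have h2 := congrArg Prod.snd h
    simp only [ed, Helper4.FS.lp, if_true, Bool.false_eq_true, if_false] at h2 ⊢
    rw [← h2]
    simp
  · exact absurd rfl hσ

open Classical in
/-- **jump lemma** -/
theorem jump_count (a b : ℕ → Perm (Fin n)) (g : ℕ → Option (Lt q)) (y : World q n) (i T : ℕ)
    (p : Fin n)
    (hap : ∀ c < T, pos (prog a g) y (2 * i) p (2 * c + 1) ≠ pos (prog b g) y (2 * i) p (2 * c + 1))
    (hend : pos (prog a g) y (2 * i) p (2 * T + 1) = pos (prog b g) y (2 * i) p (2 * T + 1))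
    (G : Finset ℕ) (hG : ∀ c ∈ G, c < T ∧ Prv a g y i T p c) :
    ∃ (I : Finset ℕ) (φ : ℕ → ℕ), I ⊆ Ico i (i + T) ∧ StrictMonoOn φ I ∧
      (∀ v ∈ I, i ≤ φ v ∧ φ v < i + T ∧ φ v ≠ v ∧ g v ≠ none ∧ g (φ v) = g v) ∧
      G.card ≤ I.card + (G.filter (Jmp a b g y i T p)).card := by
  classical
  rcases G.eq_empty_or_nonempty with rfl | ⟨c₀, hc₀⟩
  · exact ⟨∅, id, by simp, by intro v hv; simp at hv, by simp, by simp⟩
  obtain ⟨P, hP⟩ : ∃ P, P = prog a g := ⟨_, rfl⟩
  obtain ⟨P', hP'⟩ : ∃ P', P' = prog b g := ⟨_, rfl⟩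
  -- the first path uses the private edge only once
  have huse1 : ∀ c < T, ∀ m, g (i + c) = some m →
      (∀ c' < T, ∀ m', g (i + c') = some m' →
        edc (prog a g) y i p c' m' = edc (prog a g) y i p c m → c' = c) →
      ¬ Uses P y (2 * i) p (2 * c + 1) (edc P y i p c m) ∧
      ∀ t, 2 * c + 2 + t ≤ 2 * T + 1 →
        ¬ Uses P y (2 * i + (2 * c + 1 + 1)) (pos P y (2 * i) p (2 * c + 1 + 1)) t
          (edc P y i p c m) := by
    intro c hc m hm hu
    constructor
    · rintro ⟨k, hk, m', hm', he⟩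
      rw [hP] at hm'
      obtain ⟨c', hc', hg'⟩ := prog_inr hm'
      have h1 : k = 2 * (c' - i) + 1 := by omega
      have h2 : c' = i + (c' - i) := by omega
      rw [h2] at hg'
      have := hu (c' - i) (by omega) m' hg' (by
        rw [← hP, edc, ← h1, he])
      omega
    · intro t ht
      rintro ⟨k, hk, m', hm', he⟩
      rw [hP] at hm'
      obtain ⟨c', hc', hg'⟩ := prog_inr hm'
      have h1 : 2 * c + 1 + 1 + k = 2 * (c' - i) + 1 := by omega
      have h2 : c' = i + (c' - i) := by omega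
      rw [h2] at hg'
      have := hu (c' - i) (by omega) m' hg' (by
        rw [← hP, edc, ← h1, pos_add]; exact he)
      omega
  -- a meeting before the second path uses the edge makes a jump edge
  have hjmp : ∀ c < T, ∀ m, g (i + c) = some m →
      (∀ c' < T, ∀ m', g (i + c') = some m' →
        edc (prog a g) y i p c' m' = edc (prog a g) y i p c m → c' = c) →
      ∀ t t', 2 * c + 2 + t ≤ 2 * T + 1 → t' ≤ 2 * T + 1 →
      pos P y (2 * i) p (2 * c + 2 + t) = pos P' y (2 * i) p t' →
      ¬ Uses P' y (2 * i) p t' (edc P y i p c m) → Jmp a b g y i T p c := by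
    intro c hc m hm hu t t' ht ht' hmeet hn
    obtain ⟨h1, h2⟩ := huse1 c hc m hm hu
    refine ⟨m, t, t', hm, ht, ht', ?_⟩
    rw [← hP, ← hP']
    refine ⟨⟨m, ?_, rfl⟩, h1, h2 t ht, hn, ?_⟩
    · show P (2 * i + (2 * c + 1)) = Sum.inr m
      rw [hP, show 2 * i + (2 * c + 1) = 2 * (i + c) + 1 by ring, prog_odd_some hm]
    · show pos P y (2 * i + (2 * c + 1 + 1)) (pos P y (2 * i) p (2 * c + 1 + 1)) t =
        pos P' y (2 * i) p t'
      rw [← pos_add]
      exact hmeet
  -- the letters
  have hex : ∀ c, ∃ m, c ∈ G → g (i + c) = some m ∧ ∀ c' < T, ∀ m', g (i + c') = some m' →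
        edc (prog a g) y i p c' m' = edc (prog a g) y i p c m → c' = c := by
    intro c
    by_cases hc : c ∈ G
    · obtain ⟨m, h1, h2⟩ := (hG c hc).2
      exact ⟨m, fun _ => ⟨h1, h2⟩⟩
    · obtain ⟨m, -⟩ := (hG c₀ hc₀).2
      exact ⟨m, fun h => absurd h hc⟩
  choose ml hml using hex
  obtain ⟨G', hG'⟩ : ∃ G', G' = G.filter fun c => ¬ Jmp a b g y i T p c := ⟨_, rfl⟩
  -- the first crossing by the second path
  have hcr : ∀ c ∈ G', ∃ c', c' < T ∧ g (i + c') = g (i + c) ∧ c' ≠ c ∧
      pos P' y (2 * i) p (2 * c' + 1) = pos P y (2 * i) p (2 * c + 1) ∧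
      ¬ Uses P' y (2 * i) p (2 * c' + 1) (edc P y i p c (ml c)) := by
    intro c hc
    rw [hG', mem_filter] at hc
    obtain ⟨hcG, hnj⟩ := hc
    obtain ⟨hcT, -⟩ := hG c hcG
    obtain ⟨hm, hu⟩ := hml c hcG
    -- the second path uses the edge
    have h1 : Uses P' y (2 * i) p (2 * T + 1) (edc P y i p c (ml c)) := by
      by_contra hcon
      apply hnj
      refine hjmp c hcT (ml c) hm hu (2 * T + 1 - (2 * c + 2)) (2 * T + 1) (by omega) le_rfl ?_ hcon
      rw [show 2 * c + 2 + (2 * T + 1 - (2 * c + 2)) = 2 * T + 1 by omega, hP, hP']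
      exact hend
    have h2 : ∃ k, k < 2 * T + 1 ∧ ∃ m', P' (2 * i + k) = Sum.inr m' ∧
        ed y m' (pos P' y (2 * i) p k) = edc P y i p c (ml c) := by
      obtain ⟨k, hk, m', hm', he⟩ := h1
      exact ⟨k, hk, m', hm', he⟩
    obtain ⟨k, ⟨hk, m', hm', he⟩, hmin⟩ := Nat.findX h2
    have hm'' := hm'
    rw [hP'] at hm''
    obtain ⟨c', hc', hg'⟩ := prog_inr hm''
    have hk2 : k = 2 * (c' - i) + 1 := by omega
    have hc2 : c' = i + (c' - i) := by omega
    rw [hc2] at hg'
    have hnu : ¬ Uses P' y (2 * i) p k (edc P y i p c (ml c)) := by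
      rintro ⟨k', hk', m₂, hm₂, he₂⟩
      exact hmin k' hk' ⟨by omega, m₂, hm₂, he₂⟩
    by_cases hmm : m' = ml c
    · rw [hmm] at he hg'
      have h3 : pos P' y (2 * i) p k = pos P y (2 * i) p (2 * c + 1) := same_place he
      refine ⟨c' - i, by omega, by rw [hg', hm], ?_, by rw [← hk2]; exact h3,
        by rw [← hk2]; exact hnu⟩
      intro h4
      apply hap c hcT
      rw [← hP, ← hP', ← h3, hk2, h4]
    · exfalso
      apply hnj
      have h3 := opp_place he hmm
      refine hjmp c hcT (ml c) hm hu 0 k (by omega) (by omega) ?_ hnu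
      rw [h3, Nat.add_zero, hP]
      exact pos_letter hm y p
  choose! f hf using hcr
  refine ⟨G'.image (fun c => i + c), fun v => i + f (v - i), ?_, ?_, ?_, ?_⟩
  · intro v hv
    rw [mem_image] at hv
    obtain ⟨c, hc, rfl⟩ := hv
    rw [hG', mem_filter] at hc
    have := (hG c hc.1).1
    rw [mem_Ico]
    omega
  · intro v hv w hw hvw
    rw [mem_coe, mem_image] at hv hw
    obtain ⟨c₁, hc₁, rfl⟩ := hv
    obtain ⟨c₂, hc₂, rfl⟩ := hw
    simp only [Nat.add_sub_cancel_left]
    have hlt : c₁ < c₂ := by omega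
    have hlt' : f c₁ < f c₂ := by
      by_contra hcon
      obtain ⟨h1, h2, h3, h4, h5⟩ := hf c₁ hc₁
      obtain ⟨k1, k2, k3, k4, k5⟩ := hf c₂ hc₂
      rw [hG', mem_filter] at hc₁ hc₂
      obtain ⟨hm, hu⟩ := hml c₁ hc₁.1
      have hT1 := (hG c₁ hc₁.1).1
      have hT2 := (hG c₂ hc₂.1).1
      apply hc₁.2
      refine hjmp c₁ hT1 (ml c₁) hm hu (2 * c₂ + 1 - (2 * c₁ + 2)) (2 * f c₂ + 1) (by omega)
        (by omega) ?_ (fun h => h5 (h.mono (by omega)))
      rw [show 2 * c₁ + 2 + (2 * c₂ + 1 - (2 * c₁ + 2)) = 2 * c₂ + 1 by omega, k4]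
    omega
  · intro v hv
    rw [mem_image] at hv
    obtain ⟨c, hc, rfl⟩ := hv
    obtain ⟨h1, h2, h3, h4, h5⟩ := hf c hc
    rw [hG', mem_filter] at hc
    obtain ⟨hm, -⟩ := hml c hc.1
    simp only [Nat.add_sub_cancel_left]
    refine ⟨by omega, by omega, by omega, by rw [hm]; simp, h2⟩
  · rw [card_image_of_injective _ (fun x y h => by simpa using h), hG']
    have := card_filter_add_card_filter_not (s := G) (Jmp a b g y i T p)
    omega

end Pool.Agent.Helper34.IC
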