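import Pool.Agent.Helper34.IC.Bad
import Pool.Agent.Helper34.IC.Icl
import Pool.Agent.Helper7.FS.SplitA

/-!
# Project FS (MP_75608d_al), interval route: the split lemma

The first system is fixed, the words of the second system are independent. If most pairs (token, slot)
are good for the first system, then with large probability either many good pairs are apart in one slot
or many good pairs are separated.
-/

set_option autoImplicit false

namespace Pool.Agent.Helper34.IC

open Equiv Finset Pool.Agent.Helper4.FS
open Pool.Agent.Helper7.FS (ext chain_count)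

variable {q n s : ℕ}

/-- the sets of fewer than `d` tokens -/
def small (s d : ℕ) : Finset (Finset (Fin s)) := univ.filter fun D => D.card < d

/-- one word agrees with a given map on all but fewer than `d` tokens of `R` -/
lemma agree_le (μ : Perm (Fin n) → ℝ) (hμ0 : ∀ A, 0 ≤ μ A) {b d : ℕ} (hd : 1 ≤ d) {ρ : ℝ}
    (hρ : ∀ c c' : Fin b ↪ Fin n, ∑ A, (if ∀ j, A (c j) = c' j then μ A else 0) ≤ ρ)
    (p p' : Fin s → Fin n) (hp : Function.Injective p) (hp' : Function.Injective p')
    (R : Finset (Fin s)) (hR : b + d ≤ R.card + 1) :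
    ∑ A : Perm (Fin n), (if (R.filter fun l => A (p l) ≠ p' l).card < d then μ A else 0) ≤
      (small s d).card * ρ := by
  classical
  have hsub : ∀ D ∈ small s d, ∃ ι : Fin b ↪ Fin s, ∀ j, ι j ∈ R ∧ ι j ∉ D := by
    intro D hD
    rw [small, mem_filter] at hD
    have h1 : b ≤ (R \ D).card := by
      have := le_card_sdiff D R
      omega
    obtain ⟨T, hT, hc⟩ := exists_subset_card_eq h1
    refine ⟨(T.orderEmbOfFin hc).toEmbedding, fun j => ?_⟩
    have h2 : T.orderEmbOfFin hc j ∈ R \ D := hT (orderEmbOfFin_mem T hc j)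
    rw [mem_sdiff] at h2
    exact h2
  have hex : ∀ D, ∃ ι : Fin b → Fin s, D ∈ small s d →
      Function.Injective ι ∧ ∀ j, ι j ∈ R ∧ ι j ∉ D := by
    intro D
    by_cases hD : D ∈ small s d
    · obtain ⟨ι, hι⟩ := hsub D hD
      exact ⟨ι, fun _ => ⟨ι.injective, hι⟩⟩
    · by_cases hs : ∃ l : Fin s, True
      · obtain ⟨l, -⟩ := hs
        exact ⟨fun _ => l, fun h => absurd h hD⟩
      · rcases isEmpty_or_nonempty (Fin b) with hb | ⟨⟨j⟩⟩
        · exact ⟨fun j => (hb.false j).elim, fun h => absurd h hD⟩
        · exfalso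
          apply hD
          rw [small, mem_filter]
          refine ⟨mem_univ _, ?_⟩
          have : D = ∅ := by
            rw [eq_empty_iff_forall_notMem]
            intro l _
            exact hs ⟨l, trivial⟩
          rw [this, card_empty]
          omega
  choose ι hι using hex
  calc ∑ A : Perm (Fin n), (if (R.filter fun l => A (p l) ≠ p' l).card < d then μ A else 0) ≤
        ∑ A : Perm (Fin n), ∑ D ∈ small s d,
          (if ∀ j, A (p (ι D j)) = p' (ι D j) then μ A else 0) := by
        refine sum_le_sum fun A _ => ?_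
        split_ifs with h
        · have hD : (R.filter fun l => A (p l) ≠ p' l) ∈ small s d := by
            rw [small, mem_filter]
            exact ⟨mem_univ _, h⟩
          refine le_trans (le_of_eq ?_) (single_le_sum (f := fun D =>
            (if ∀ j, A (p (ι D j)) = p' (ι D j) then μ A else 0)) (fun D _ => ?_) hD)
          · rw [if_pos]
            intro j
            obtain ⟨-, h2⟩ := hι _ hD
            obtain ⟨h3, h4⟩ := h2 j
            by_contra hcon
            exact h4 (mem_filter.2 ⟨h3, hcon⟩)
          · show 0 ≤ (if ∀ j, A (p (ι D j)) = p' (ι D j) then μ A else 0)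
            split_ifs
            · exact hμ0 A
            · exact le_rfl
        · exact sum_nonneg fun D _ => by
            split_ifs
            · exact hμ0 A
            · exact le_rfl
    _ = ∑ D ∈ small s d, ∑ A : Perm (Fin n),
          (if ∀ j, A (p (ι D j)) = p' (ι D j) then μ A else 0) := sum_comm
    _ ≤ ∑ D ∈ small s d, ρ := by
        refine sum_le_sum fun D hD => ?_
        obtain ⟨h1, -⟩ := hι D hD
        exact hρ ⟨fun j => p (ι D j), hp.comp h1⟩ ⟨fun j => p' (ι D j), hp'.comp h1⟩
    _ = _ := by rw [sum_const, nsmul_eq_mul]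

/-- the position depends on the earlier words only -/
lemma ps_congr {h h' : ℕ → Perm (Fin n)} (g : ℕ → Option (Lt q)) (y : World q n)
    (x : Fin s → Fin n) (l : Fin s) {v : ℕ} (hh : ∀ k < v, h k = h' k) :
    ∀ t ≤ 2 * v, ps h g y x l t = ps h' g y x l t := by
  intro t
  induction t with
  | zero => intro _; rfl
  | succ t ih =>
    intro ht
    have h1 := ih (by omega)
    unfold ps at h1 ⊢
    rw [pos_succ, pos_succ, h1, zero_add]
    congr 2
    rcases Nat.even_or_odd t with ⟨c, hc⟩ | ⟨c, hc⟩
    · rw [show t = 2 * c by omega, prog_even, prog_even, hh c (by omega)]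
    · rw [hc]
      exact prog_odd_eq h h' g c

lemma ps_word (a : ℕ → Perm (Fin n)) (g : ℕ → Option (Lt q)) (y : World q n)
    (x : Fin s → Fin n) (l : Fin s) (v : ℕ) :
    ps a g y x l (2 * v + 1) = a v (ps a g y x l (2 * v)) := by
  unfold ps
  exact pos_even_step a g y (x l) v

open Classical in
/-- the second system has many good separated pairs -/
def ManyB (a b : ℕ → Perm (Fin n)) (g : ℕ → Option (Lt q)) (y : World q n) (E N k₀ : ℕ)
    (x : Fin s → Fin n) : Prop :=
  (∃ v < N, k₀ ≤ ((univ : Finset (Fin s)).filter fun l =>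
      Apart a b g y x l v ∧ Gd a g y E N x l v).card) ∨
    k₀ ≤ (((univ : Finset (Fin s)) ×ˢ range N).filter fun e =>
      Start a b g y x e.1 e.2 ∧ Gd a g y E N x e.1 e.2).card

open Classical in
/-- together before the word of round `i`, and good -/
noncomputable def Tg (a b : ℕ → Perm (Fin n)) (g : ℕ → Option (Lt q)) (y : World q n) (E N : ℕ)
    (x : Fin s → Fin n) (i : ℕ) : Finset (Fin s) :=
  univ.filter fun l => ps a g y x l (2 * i) = ps b g y x l (2 * i) ∧ Gd a g y E N x l i

open Classical in
/-- few separations in round `i` -/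
def Few (a b : ℕ → Perm (Fin n)) (g : ℕ → Option (Lt q)) (y : World q n) (E N d : ℕ)
    (x : Fin s → Fin n) (i : ℕ) : Prop :=
  3 * s ≤ 5 * (Tg a b g y E N x i).card ∧
    ((Tg a b g y E N x i).filter fun l => Apart a b g y x l i).card < d

open Classical in
/-- a second system without many good separated pairs has few separations in half of the rounds -/
lemma few_of_not_many (a b : ℕ → Perm (Fin n)) (g : ℕ → Option (Lt q)) (y : World q n)
    {E N k₀ d : ℕ} (x : Fin s → Fin n) (hs : 1 ≤ s) (hd : 1 ≤ d) (h1 : 10 * k₀ ≤ s)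
    (h2 : 4 * k₀ ≤ d * N)
    (h3 : 80 * (((univ : Finset (Fin s)) ×ˢ range N).filter fun e =>
      ¬ Gd a g y E N x e.1 e.2).card ≤ s * N)
    (hM : ¬ ManyB a b g y E N k₀ x) :
    ∃ R ⊆ range N, R.card = N / 2 ∧ ∀ i ∈ R, Few a b g y E N d x i := by
  classical
  unfold ManyB at hM
  push Not at hM
  obtain ⟨hM1, hM2⟩ := hM
  obtain ⟨ng, hng⟩ : ∃ ng : ℕ → ℕ, ng = fun v =>
    ((univ : Finset (Fin s)).filter fun l => ¬ Gd a g y E N x l v).card := ⟨_, rfl⟩
  obtain ⟨st, hst⟩ : ∃ st : ℕ → ℕ, st = fun i =>
    ((univ : Finset (Fin s)).filter fun l => Start a b g y x l i ∧ Gd a g y E N x l i).card :=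
    ⟨_, rfl⟩
  have hngs : (((univ : Finset (Fin s)) ×ˢ range N).filter fun e =>
      ¬ Gd a g y E N x e.1 e.2).card = ∑ v ∈ range N, ng v := by
    rw [card_filter, sum_product_right, hng]
    refine sum_congr rfl fun v _ => ?_
    exact (card_filter _ _).symm
  have hsts : (((univ : Finset (Fin s)) ×ˢ range N).filter fun e =>
      Start a b g y x e.1 e.2 ∧ Gd a g y E N x e.1 e.2).card = ∑ v ∈ range N, st v := by
    rw [card_filter, sum_product_right, hst]
    refine sum_congr rfl fun v _ => ?_
    exact (card_filter _ _).symm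
  obtain ⟨BR, hBR⟩ : ∃ BR, BR = (range N).filter fun v => s < 10 * ng v := ⟨_, rfl⟩
  obtain ⟨St, hSt⟩ : ∃ St, St = (range N).filter fun i => d ≤ st i := ⟨_, rfl⟩
  have hBc : 8 * BR.card ≤ N := by
    have e1 : BR.card * s ≤ 10 * ∑ v ∈ range N, ng v := by
      calc BR.card * s = ∑ _v ∈ BR, s := by rw [sum_const, smul_eq_mul]
        _ ≤ ∑ v ∈ BR, 10 * ng v := sum_le_sum fun v hv => by
            rw [hBR, mem_filter] at hv
            exact hv.2.le
        _ ≤ ∑ v ∈ range N, 10 * ng v :=
            sum_le_sum_of_subset (by rw [hBR]; exact filter_subset _ _)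
        _ = _ := (mul_sum _ _ _).symm
    rw [hngs] at h3
    have e2 : s * (8 * BR.card) ≤ s * N := by
      calc s * (8 * BR.card) = 8 * (BR.card * s) := by ring
        _ ≤ 8 * (10 * ∑ v ∈ range N, ng v) := Nat.mul_le_mul le_rfl e1
        _ = 80 * ∑ v ∈ range N, ng v := by ring
        _ ≤ s * N := h3
    exact Nat.le_of_mul_le_mul_left e2 (by omega)
  have hSc : 4 * St.card ≤ N := by
    have e1 : St.card * d ≤ ∑ v ∈ range N, st v := by
      calc St.card * d = ∑ _v ∈ St, d := by rw [sum_const, smul_eq_mul]
        _ ≤ ∑ v ∈ St, st v := sum_le_sum fun v hv => by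
            rw [hSt, mem_filter] at hv
            exact hv.2
        _ ≤ _ := sum_le_sum_of_subset (by rw [hSt]; exact filter_subset _ _)
    rw [hsts] at hM2
    have e2 : d * (4 * St.card) ≤ d * N := by
      calc d * (4 * St.card) = 4 * (St.card * d) := by ring
        _ ≤ 4 * k₀ := Nat.mul_le_mul le_rfl (e1.trans hM2.le)
        _ ≤ d * N := h2
    exact Nat.le_of_mul_le_mul_left e2 (by omega)
  obtain ⟨G, hG⟩ : ∃ G, G = (range N) \ (BR ∪ (BR.image (fun v => v + 1) ∪ St)) := ⟨_, rfl⟩
  have hGc : N / 2 ≤ G.card := by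
    have e1 : (BR ∪ (BR.image (fun v => v + 1) ∪ St)).card ≤ BR.card + (BR.card + St.card) :=
      (card_union_le _ _).trans (Nat.add_le_add le_rfl
        ((card_union_le _ _).trans (Nat.add_le_add card_image_le le_rfl)))
    have e2 := le_card_sdiff (BR ∪ (BR.image (fun v => v + 1) ∪ St)) (range N)
    rw [← hG, card_range] at e2
    omega
  obtain ⟨R, hRG, hRc⟩ := exists_subset_card_eq hGc
  refine ⟨R, hRG.trans (by rw [hG]; exact sdiff_subset), hRc, ?_⟩
  intro i hi
  have hiG := hRG hi
  rw [hG, mem_sdiff, mem_union, mem_union, mem_range] at hiG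
  obtain ⟨hiN, hi2⟩ := hiG
  push Not at hi2
  obtain ⟨hiB, hiB', hiS⟩ := hi2
  have hng_i : 10 * ng i ≤ s := by
    by_contra hcon
    exact hiB (by rw [hBR, mem_filter, mem_range]; exact ⟨hiN, by omega⟩)
  have hst_i : st i < d := by
    by_contra hcon
    exact hiS (by rw [hSt, mem_filter, mem_range]; exact ⟨hiN, by omega⟩)
  -- tokens which are apart before the word of round `i`
  have hap : 10 * ((univ : Finset (Fin s)).filter fun l =>
      ps a g y x l (2 * i) ≠ ps b g y x l (2 * i)).card ≤ 2 * s := by
    rcases i with _ | i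
    · have : ((univ : Finset (Fin s)).filter fun l =>
          ps a g y x l (2 * 0) ≠ ps b g y x l (2 * 0)) = ∅ := by
        rw [filter_eq_empty_iff]
        intro l _ h
        exact h rfl
      rw [this, card_empty]
      omega
    · have hiB2 : 10 * ng i ≤ s := by
        by_contra hcon
        apply hiB'
        rw [mem_image]
        refine ⟨i, ?_, rfl⟩
        rw [hBR, mem_filter, mem_range]
        exact ⟨by omega, by omega⟩
      have e1 := hM1 i (by omega)
      have e2 : ((univ : Finset (Fin s)).filter fun l =>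
          ps a g y x l (2 * (i + 1)) ≠ ps b g y x l (2 * (i + 1))) ⊆
          (univ.filter fun l => Apart a b g y x l i ∧ Gd a g y E N x l i) ∪
            (univ.filter fun l => ¬ Gd a g y E N x l i) := by
        intro l hl
        rw [mem_filter, show 2 * (i + 1) = 2 * i + 2 by ring, Ne, letter_iff, not_not] at hl
        rw [mem_union, mem_filter, mem_filter]
        by_cases h : Gd a g y E N x l i
        · exact Or.inl ⟨mem_univ _, hl.2, h⟩
        · exact Or.inr ⟨mem_univ _, h⟩
      have e3 := (card_le_card e2).trans (card_union_le _ _)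
      have e4 : ((univ : Finset (Fin s)).filter fun l => ¬ Gd a g y E N x l i).card = ng i := by
        rw [hng]
      rw [e4] at e3
      omega
  refine ⟨?_, ?_⟩
  · have e1 : (univ : Finset (Fin s)) ⊆ Tg a b g y E N x i ∪
        ((univ.filter fun l => ps a g y x l (2 * i) ≠ ps b g y x l (2 * i)) ∪
          (univ.filter fun l => ¬ Gd a g y E N x l i)) := by
      intro l _
      rw [mem_union, mem_union, mem_filter, mem_filter, Tg, mem_filter]
      by_cases h4 : ps a g y x l (2 * i) = ps b g y x l (2 * i)
      · by_cases h5 : Gd a g y E N x l i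
        · exact Or.inl ⟨mem_univ _, h4, h5⟩
        · exact Or.inr (Or.inr ⟨mem_univ _, h5⟩)
      · exact Or.inr (Or.inl ⟨mem_univ _, h4⟩)
    have e2 := (card_le_card e1).trans ((card_union_le _ _).trans
      (Nat.add_le_add le_rfl (card_union_le _ _)))
    rw [card_univ, Fintype.card_fin] at e2
    have e4 : ((univ : Finset (Fin s)).filter fun l => ¬ Gd a g y E N x l i).card = ng i := by
      rw [hng]
    rw [e4] at e2
    omega
  · rw [hst] at hst_i
    refine lt_of_le_of_lt (card_le_card ?_) hst_i
    intro l hl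
    rw [mem_filter, Tg, mem_filter] at hl
    obtain ⟨⟨-, h4, h5⟩, h6⟩ := hl
    rw [mem_filter]
    exact ⟨mem_univ _, ⟨h4, h6⟩, h5⟩

open Classical in
/-- **split lemma** -/
theorem spi (μ : Perm (Fin n) → ℝ) (hμ0 : ∀ A, 0 ≤ μ A) (hμ1 : ∑ A, μ A = 1) {b d : ℕ} {ρ : ℝ}
    (hρ0 : 0 ≤ ρ)
    (hρ : ∀ c c' : Fin b ↪ Fin n, ∑ A, (if ∀ j, A (c j) = c' j then μ A else 0) ≤ ρ)
    (a : ℕ → Perm (Fin n)) (g : ℕ → Option (Lt q)) (y : World q n)
    {E N k₀ : ℕ} (x : Fin s → Fin n) (hx : Function.Injective x) (hs : 1 ≤ s) (hd : 1 ≤ d)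
    (h1 : 10 * k₀ ≤ s) (h2 : 4 * k₀ ≤ d * N) (h4 : 5 * (b + d) ≤ 3 * s)
    (h3 : 80 * (((univ : Finset (Fin s)) ×ˢ range N).filter fun e =>
      ¬ Gd a g y E N x e.1 e.2).card ≤ s * N) :
    ∑ h : Fin N → Perm (Fin n),
      (if ¬ ManyB a (ext 1 h) g y E N k₀ x then ∏ k, μ (h k) else 0) ≤
      2 ^ N * ((small s d).card * ρ) ^ (N / 2) := by
  classical
  have hloc0 : ∀ i (h h' : ℕ → Perm (Fin n)), (∀ k < i, h k = h' k) →
      Tg a h g y E N x i = Tg a h' g y E N x i := by
    intro i h h' hh
    unfold Tg
    refine filter_congr fun l _ => ?_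
    rw [ps_congr g y x l hh (2 * i) le_rfl]
  have := chain_count μ hμ0 hμ1 1 (fun i h => Few a h g y E N d x i)
    (by
      intro i h h' hh hf
      obtain ⟨f1, f2⟩ := hf
      have e1 := hloc0 i h h' (fun k hk => hh k hk.le)
      refine ⟨by rw [← e1]; exact f1, ?_⟩
      rw [← e1]
      refine lt_of_le_of_lt (le_of_eq ?_) f2
      congr 1
      refine filter_congr fun l _ => ?_
      unfold Apart
      rw [ps_word h, ps_word h', ps_congr g y x l (fun k hk => hh k hk.le) (2 * i) le_rfl,
        hh i le_rfl])
    (c := (small s d).card * ρ) (by positivity)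
    (by
      intro i h inst
      by_cases hR : 3 * s ≤ 5 * (Tg a h g y E N x i).card
      · refine le_trans (sum_le_sum fun ω _ => ?_) (agree_le μ hμ0 hd hρ
          (fun l => ps h g y x l (2 * i)) (fun l => ps a g y x l (2 * i + 1)) ?_ ?_
          (Tg a h g y E N x i) (d := d) (by omega))
        · have e1 := hloc0 i (Function.update h i ω) h (fun k hk => by
            rw [Function.update_of_ne (by omega)])
          by_cases hf : Few a (Function.update h i ω) g y E N d x i
          · rw [if_pos hf, if_pos]
            obtain ⟨-, f2⟩ := hf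
            rw [e1] at f2
            refine lt_of_le_of_lt (le_of_eq ?_) f2
            congr 1
            refine filter_congr fun l _ => ?_
            unfold Apart
            rw [ps_word (Function.update h i ω), Function.update_self,
              ps_congr g y x l (fun k hk => by
                rw [Function.update_of_ne (by omega)] : ∀ k < i, (Function.update h i ω) k = h k)
                (2 * i) le_rfl]
            exact ne_comm
          · rw [if_neg hf]
            split_ifs
            · exact hμ0 ω
            · exact le_rfl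
        · intro l l' hll
          exact hx (pos_inj _ _ _ _ hll)
        · intro l l' hll
          exact hx (pos_inj _ _ _ _ hll)
      · refine le_trans (le_of_eq (sum_eq_zero fun ω _ => if_neg ?_)) (by positivity)
        have e1 := hloc0 i (Function.update h i ω) h (fun k hk => by
            rw [Function.update_of_ne (by omega)])
        rintro ⟨f1, -⟩
        rw [e1] at f1
        exact hR f1)
    N (range N) subset_rfl (N / 2) (fun h => ¬ ManyB a (ext 1 h) g y E N k₀ x)
    (by
      intro h hM
      exact few_of_not_many a (ext 1 h) g y x hs hd h1 h2 h3 hM)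
  rw [card_range] at this
  exact this

end Pool.Agent.Helper34.IC
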